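import Pool.Agent.H249.MZ.Dom

/-!
# The part of the motivic Lie algebra which acts on multiple zeta values: the theorem with the types of the library
-/

set_option autoImplicit false

open Submodule Module Polynomial

namespace Pool.Agent.H249.MZ.Main

/-- The multiple zeta value `ζ(n_1, ..., n_m)`. -/
noncomputable def mzv (m : ℕ) (n : Fin m → ℕ) : ℝ :=
  ∑' k : {k : Fin m → ℕ // StrictMono k ∧ ∀ i, 0 < k i}, ∏ i, (((k.1 i : ℕ) : ℝ) ^ n i)⁻¹

/-- The space of the multiple zeta values of weight `w`. -/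
noncomputable def Z (w : ℕ) : Submodule ℚ ℝ := Submodule.span ℚ {x : ℝ | ∃ m : ℕ, ∃ n : Fin m → ℕ,
  (∀ i, 1 ≤ n i) ∧ (∀ i : Fin m, (i : ℕ) + 1 = m → 2 ≤ n i) ∧ ∑ i, n i = w ∧ x = mzv m n}

/-- A surjective homomorphism of graded algebras from `H` to the algebra of the polynomials `∑ z_w X^w`, `z_w ∈ Z_w`. -/
def IsPeriodMap (ev : HH →ₐ[ℚ] ℝ[X]) : Prop :=
  ∀ w, (deg w).map ev.toLinearMap = (Z w).map ((monomial w : ℝ →ₗ[ℝ] ℝ[X]).restrictScalars ℚ)

/-- Question Q1: there is an isomorphism of graded algebras from `H` to `Z`. -/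
def Q1 : Prop := ∃ ev : HH →ₐ[ℚ] ℝ[X], IsPeriodMap ev ∧ Function.Injective ev

/-- `S` is a graded Lie subalgebra of `F`: the sum of its parts of degrees `1, 2, 3, ...`. -/
def IsGradedSub (S : LieSubalgebra ℚ (Derivation ℚ HH HH)) : Prop :=
  S ≤ Fl ∧ S.toSubmodule ≤ ⨆ k : ℕ, S.toSubmodule ⊓ Deg deg (k + 1)

/-- The relations (the kernel of `ev`) are preserved by `S`. -/
def Stable (ev : HH →ₐ[ℚ] ℝ[X]) (S : LieSubalgebra ℚ (Derivation ℚ HH HH)) : Prop :=
  ∀ d ∈ S, ∀ x, ev x = 0 → ev (d x) = 0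

/-- The ideal of the relations is generated by relations which are killed by `S`. -/
def Generated (ev : HH →ₐ[ℚ] ℝ[X]) (S : LieSubalgebra ℚ (Derivation ℚ HH HH)) : Prop :=
  ∀ x, ev x = 0 → x ∈ Ideal.span {y | ev y = 0 ∧ ∀ d ∈ S, d y = 0}

/-- The dimension of the space of the values of the elements of degree `w` which are killed by `S`. -/
noncomputable def dimInv (ev : HH →ₐ[ℚ] ℝ[X]) (S : LieSubalgebra ℚ (Derivation ℚ HH HH)) (w : ℕ) : ℕ :=
  finrank ℚ (Submodule.map ev.toLinearMap (Inv S.toSubmodule ⊓ deg w))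

/-- The dimension of the part of degree `k` of `S`. -/
noncomputable def dimLie (S : LieSubalgebra ℚ (Derivation ℚ HH HH)) (k : ℕ) : ℕ :=
  finrank ℚ (S.toSubmodule ⊓ Deg deg k : Submodule ℚ (Derivation ℚ HH HH))

/-- The coefficient of `X ^ n` in `(∑ dimInv ev S w * X ^ w) / ∏_k (1 - X ^ k) ^ dimLie S k`. -/
noncomputable def bound (ev : HH →ₐ[ℚ] ℝ[X]) (S : LieSubalgebra ℚ (Derivation ℚ HH HH)) (n : ℕ) : ℚ :=
  PowerSeries.coeff n (PowerSeries.mk (fun w => (dimInv ev S w : ℚ)) *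
    (∏ k ∈ Finset.Icc 1 n, (1 - PowerSeries.X ^ k) ^ dimLie S k)⁻¹)

section

variable {ev : HH →ₐ[ℚ] ℝ[X]} (hev : IsPeriodMap ev)

theorem isGr_iff {S : LieSubalgebra ℚ (Derivation ℚ HH HH)} :
    IsGr deg S ↔ S.toSubmodule ≤ ⨆ k : ℕ, S.toSubmodule ⊓ Deg deg (k + 1) := by
  have h1 : up deg S 1 = ⨆ k : ℕ, S.toSubmodule ⊓ Deg deg (k + 1) := by
    apply le_antisymm
    · refine iSup_le fun j => ?_
      obtain ⟨k, hk⟩ := Nat.exists_eq_add_of_le' j.2
      rw [hk]
      exact le_iSup (fun k : ℕ => S.toSubmodule ⊓ Deg deg (k + 1)) k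
    · exact iSup_le fun k => le_up (by omega)
  rw [IsGr, h1]

include hev

theorem hom_ev : ∀ w, ∀ x ∈ deg w, ∃ z : ℝ, ev x = monomial w z := by
  intro w x hx
  have h1 : ev x ∈ (deg w).map ev.toLinearMap := ⟨x, hx, rfl⟩
  rw [hev w] at h1
  obtain ⟨z, -, hz⟩ := h1
  exact ⟨z, hz.symm⟩

theorem dim_Z (w : ℕ) : finrank ℚ (Z w) = finrank ℚ ((deg w).map ev.toLinearMap) := by
  rw [hev w]
  exact (Submodule.equivMapOfInjective ((monomial w : ℝ →ₗ[ℝ] ℝ[X]).restrictScalars ℚ)
    (monomial_injective w) (Z w)).finrank_eq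

theorem dm_bot (w : ℕ) : dm deg (RingHom.ker ev) ⊥ w = finrank ℚ (Z w) := by
  have hb : (Inv ⊥ ⊓ deg w : Submodule ℚ HH) = deg w := inf_eq_right.mpr fun x _ d hd => by
    rw [(Submodule.mem_bot ℚ).mp hd]
    rfl
  rw [dm_ker (hom_ev hev) gr_deg, hb, dim_Z hev]

theorem bd_eq (S : LieSubalgebra ℚ (Derivation ℚ HH HH)) (n : ℕ) : bd deg (RingHom.ker ev) S n = bound ev S n := by
  have h1 : HS deg (RingHom.ker ev) S.toSubmodule = PowerSeries.mk (fun w => (dimInv ev S w : ℚ)) := by
    ext w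
    rw [HS, PowerSeries.coeff_mk, PowerSeries.coeff_mk, dm_ker (hom_ev hev) gr_deg]
    rfl
  rw [bd, h1]
  rfl

omit hev in
theorem mzv_two_ne : mzv 1 (fun _ => 2) ≠ 0 := by
  have hinj : Function.Injective fun k : {k : Fin 1 → ℕ // StrictMono k ∧ ∀ i, 0 < k i} => k.1 0 := by
    intro k l h
    refine Subtype.ext (funext fun i => ?_)
    rw [Subsingleton.elim i 0]
    exact h
  have hs : Summable fun k : {k : Fin 1 → ℕ // StrictMono k ∧ ∀ i, 0 < k i} =>
      ∏ i, (((k.1 i : ℕ) : ℝ) ^ ((fun _ => 2 : Fin 1 → ℕ) i))⁻¹ := by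
    have h1 : Summable fun n : ℕ => ((n : ℝ) ^ 2)⁻¹ := Real.summable_nat_pow_inv.mpr one_lt_two
    refine (h1.comp_injective hinj).congr fun k => ?_
    simp
  have hm : StrictMono (fun _ : Fin 1 => 1 : Fin 1 → ℕ) := fun i j h => absurd h (by
    rw [Subsingleton.elim i j]
    exact lt_irrefl _)
  have hpos := hs.tsum_pos (fun k => Finset.prod_nonneg fun i _ => by positivity)
    ⟨fun _ => 1, hm, fun _ => Nat.one_pos⟩ (by simp)
  exact hpos.ne'

theorem ev_X : ∃ z : ℝ, z ≠ 0 ∧ ev (X : HH) = monomial 2 z := by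
  have hX : (X : HH) = monomial 1 (word []) := rfl
  have h1 : (X : HH) ∈ deg 2 := subset_span ⟨1, [], rfl, rfl⟩
  obtain ⟨z, hz⟩ := hom_ev hev 2 X h1
  refine ⟨z, fun h0 => ?_, hz⟩
  rw [h0, map_zero] at hz
  have h2 : mzv 1 (fun _ => 2) ∈ Z 2 := subset_span ⟨1, fun _ => 2, fun _ => one_le_two, fun _ _ => le_rfl, by simp, rfl⟩
  have h3 : (monomial 2 (mzv 1 (fun _ => 2)) : ℝ[X]) ∈ (deg 2).map ev.toLinearMap := by
    rw [hev 2]
    exact ⟨_, h2, rfl⟩
  obtain ⟨x, hx, hx'⟩ := h3
  have h4 : ev x = 0 := by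
    refine Submodule.span_induction (p := fun x _ => ev x = 0) ?_ (map_zero _) ?_ ?_ hx
    · rintro _ ⟨i, u, h5, rfl⟩
      have h6 : u = [] := by
        rcases u with _ | ⟨a, u⟩
        · rfl
        · rw [wt_cons] at h5
          omega
      rw [h6, wt_nil] at h5
      have h7 : i = 1 := by omega
      rw [h6, h7, ← hX]
      exact hz
    · intro a b _ _ ha hb
      rw [map_add, ha, hb, add_zero]
    · intro c a _ ha
      rw [map_smul, ha, smul_zero]
  have h5 : ev x = monomial 2 (mzv 1 (fun _ => 2)) := hx'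
  rw [h4] at h5
  exact mzv_two_ne ((monomial_eq_zero_iff _ _).mp h5.symm)

theorem inj_of_stable (h : Stable ev Fl) : Function.Injective ev := by
  have h1 := (stable_iff_gen gr_deg nondeg_Fl gr_Fl (ker_homog (hom_ev hev) gr_deg)).mp fun d hd x hx => h d hd x hx
  rw [injective_iff_map_eq_zero]
  intro x hx
  have h2 : gen deg (RingHom.ker ev) Fl.toSubmodule ≤ ⊥ := by
    refine Ideal.span_le.mpr ?_
    rintro y ⟨hy0, hy1, -⟩
    obtain ⟨q, rfl⟩ := Inv_Fl hy1
    obtain ⟨z, hz, hX⟩ := ev_X hev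
    have h3 : (ev.comp (Polynomial.mapAlgHom (Algebra.ofId ℚ Sh))) = aeval (monomial 2 z : ℝ[X]) := by
      refine Polynomial.algHom_ext ?_
      rw [AlgHom.comp_apply, aeval_X, coe_mapAlgHom, Polynomial.map_X, hX]
    have h4 : aeval (monomial 2 z : ℝ[X]) q = 0 := by
      rw [← h3]
      exact hy0
    have h5 : (q.map (algebraMap ℚ ℝ)).comp (monomial 2 z) = 0 := by
      rw [← h4, Polynomial.comp, eval₂_map, aeval_def]
      rfl
    rw [comp_eq_zero_iff] at h5
    rcases h5 with h5 | ⟨-, h5⟩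
    · have h6 : q = 0 := (Polynomial.map_eq_zero (algebraMap ℚ ℝ)).mp h5
      rw [h6, Polynomial.map_zero]
      rfl
    · exfalso
      have h6 := congrArg (fun p : ℝ[X] => p.coeff 2) h5
      simp only [coeff_monomial, coeff_C] at h6
      exact hz (by simpa using h6)
  exact h2 (h1 hx)

theorem inj_of_Q1 (h : Q1) : Function.Injective ev := by
  obtain ⟨φ, h1, h2⟩ := h
  have key : ∀ w, ∀ x ∈ deg w, ev x = 0 → x = 0 := by
    intro w x hx h0
    have hf := gr_deg.fin w
    have e1 := finrank_map_add ev.toLinearMap (deg w)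
    have e2 : finrank ℚ ((deg w).map φ.toLinearMap) = finrank ℚ (deg w) :=
      (Submodule.equivMapOfInjective φ.toLinearMap h2 (deg w)).finrank_eq.symm
    rw [← dim_Z h1, dim_Z hev] at e2
    have e3 : finrank ℚ (deg w ⊓ LinearMap.ker ev.toLinearMap : Submodule ℚ HH) = 0 := by omega
    have hf2 : FiniteDimensional ℚ (deg w ⊓ LinearMap.ker ev.toLinearMap : Submodule ℚ HH) :=
      Submodule.finiteDimensional_of_le inf_le_left
    rw [Submodule.finrank_eq_zero] at e3
    have h3 : x ∈ (deg w ⊓ LinearMap.ker ev.toLinearMap : Submodule ℚ HH) := ⟨hx, h0⟩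
    rwa [e3, Submodule.mem_bot] at h3
  rw [injective_iff_map_eq_zero]
  intro x hx
  have h1 := ker_homog (hom_ev hev) gr_deg x hx
  refine Submodule.iSup_induction _ (motive := fun x : HH => x = 0) h1 ?_ rfl fun a b ha hb => by rw [ha, hb, add_zero]
  rintro n y ⟨hy1, hy2⟩
  exact key n y hy2 hy1

theorem dim_add (n : ℕ) : finrank ℚ (Z n) + finrank ℚ (deg n ⊓ LinearMap.ker ev.toLinearMap : Submodule ℚ HH) =
    finrank ℚ (deg n) := by
  have hf := gr_deg.fin n
  rw [dim_Z hev]
  exact finrank_map_add ev.toLinearMap (deg n)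

/-- one relation of weight `m` lowers all dimensions -/
theorem dim_drop {m n : ℕ} (hmn : m ≤ n) {x : HH} (hx : x ∈ deg m) (hx0 : x ≠ 0) (hxe : ev x = 0) :
    finrank ℚ (Z n) + finrank ℚ (deg (n - m)) ≤ finrank ℚ (deg n) := by
  have hf := gr_deg.fin n
  have hf2 : FiniteDimensional ℚ (deg n ⊓ LinearMap.ker ev.toLinearMap : Submodule ℚ HH) :=
    Submodule.finiteDimensional_of_le inf_le_left
  rw [← dim_add hev n]
  refine Nat.add_le_add_left ?_ _
  have h1 : ∀ z : deg (n - m), x * (z : HH) ∈ (deg n ⊓ LinearMap.ker ev.toLinearMap : Submodule ℚ HH) := fun z => by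
    refine ⟨?_, ?_⟩
    · have h2 := gr_deg.mul hx z.2
      rwa [Nat.add_sub_cancel' hmn] at h2
    · change ev (x * z) = 0
      rw [map_mul, hxe, zero_mul]
  let f : deg (n - m) →ₗ[ℚ] (deg n ⊓ LinearMap.ker ev.toLinearMap : Submodule ℚ HH) :=
    LinearMap.codRestrict _ ((LinearMap.mulLeft ℚ x).comp (deg (n - m)).subtype) h1
  refine LinearMap.finrank_le_finrank_of_injective (f := f) ?_
  rw [injective_iff_map_eq_zero]
  intro z hz
  have h3 : x * (z : HH) = 0 := congrArg Subtype.val hz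
  exact Subtype.ext ((HH_dom _ _ h3).resolve_left hx0)

omit hev in
theorem deg_pos {r : ℕ} (hr : 2 ≤ r) : 1 ≤ finrank ℚ (deg r) := by
  have hf := gr_deg.fin r
  obtain ⟨i, u, h1⟩ : ∃ (i : ℕ) (u : List ℕ), 2 * i + wt u = r := by
    rcases Nat.even_or_odd' r with ⟨c, hc | hc⟩
    · exact ⟨c, [], by rw [wt_nil]; omega⟩
    · exact ⟨c - 1, [0], by rw [wt_cons, wt_nil]; omega⟩
  have h2 : (monomial i (word u) : HH) ∈ deg r := subset_span ⟨i, u, h1, rfl⟩
  have h3 : (monomial i (word u) : HH) ≠ 0 := fun h => by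
    have h4 := congrArg (fun p : HH => co u (p.coeff i)) h
    simp only [coeff_monomial, if_true, coeff_zero, map_zero, co_word] at h4
    exact one_ne_zero h4
  refine Nat.one_le_iff_ne_zero.mpr fun h => ?_
  rw [Submodule.finrank_eq_zero] at h
  rw [h, Submodule.mem_bot] at h2
  exact h3 h2

theorem inj_of_infinite (h : {n | finrank ℚ (Z n) = finrank ℚ (deg n)}.Infinite) : Function.Injective ev := by
  have key : ∀ m, ∀ x ∈ deg m, ev x = 0 → x = 0 := by
    intro m x hx h0
    by_contra hne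
    obtain ⟨n, hn, hmn⟩ := h.exists_gt (m + 1)
    have h1 := dim_drop hev (show m ≤ n by omega) hx hne h0
    have h2 := deg_pos (r := n - m) (by omega)
    have h3 : finrank ℚ (Z n) = finrank ℚ (deg n) := hn
    omega
  rw [injective_iff_map_eq_zero]
  intro x hx
  have h1 := ker_homog (hom_ev hev) gr_deg x hx
  refine Submodule.iSup_induction _ (motive := fun x : HH => x = 0) h1 ?_ rfl fun a b ha hb => by rw [ha, hb, add_zero]
  rintro n y ⟨hy1, hy2⟩
  exact key n y hy2 hy1

end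

/-- **Theorem.** For every period map `ev` there is a largest graded Lie subalgebra `S₀` of `F` which preserves the
relations. For graded Lie subalgebras `S` of `F` the following are equivalent: `S` is contained in `S₀`; the relations are
generated by relations killed by `S`; `dim Z_n` is equal to the bound `bound ev S n` for all `n`, which holds for
every `S`. The ideal of the relations is finitely generated if and only if `S₀` contains all elements of `F` of large
degree. A relation of weight `m` implies `dim Z_n ≤ dim H_n - dim H_(n-m)` for `n ≥ m`. Q1 holds if and only if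
`S₀ = F`, if and only if `dim Z_n = dim H_n` for infinitely many `n`. -/
theorem main (ev : HH →ₐ[ℚ] ℝ[X]) (hev : IsPeriodMap ev) :
    ∃ S₀ : LieSubalgebra ℚ (Derivation ℚ HH HH), IsGradedSub S₀ ∧
      (∀ S, IsGradedSub S → (Stable ev S ↔ S ≤ S₀) ∧ (Generated ev S ↔ S ≤ S₀) ∧
        ((∀ n, (finrank ℚ (Z n) : ℚ) = bound ev S n) ↔ S ≤ S₀) ∧ ∀ n, (finrank ℚ (Z n) : ℚ) ≤ bound ev S n) ∧
      ((RingHom.ker ev).FG ↔ ∃ N, ∀ k > N, Fl.toSubmodule ⊓ Deg deg k ≤ S₀.toSubmodule) ∧
      (∀ m n, m ≤ n → (∃ x ∈ deg m, x ≠ 0 ∧ ev x = 0) →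
        finrank ℚ (Z n) + finrank ℚ (deg (n - m)) ≤ finrank ℚ (deg n)) ∧
      (Q1 ↔ S₀ = Fl) ∧ (Q1 ↔ {n | finrank ℚ (Z n) = finrank ℚ (deg n)}.Infinite) := by
  have hh := hom_ev hev
  have hker := ker_homog hh gr_deg
  refine ⟨stab Fl ev, ⟨fun d hd => hd.1, isGr_iff.mp (stab_gr hh gr_deg gr_Fl)⟩, fun S hS => ?_, ?_,
    fun m n hmn ⟨x, hx, hx0, hxe⟩ => dim_drop hev hmn hx hx0 hxe, ?_, ?_⟩
  · have hgr : IsGr deg S := isGr_iff.mpr hS.2
    have hnd : NonDeg deg S := fun k hk d hd => nondeg_Fl k hk d ⟨hS.1 hd.1, hd.2⟩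
    have h0 : Stable ev S ↔ S ≤ stab Fl ev :=
      ⟨fun h d hd => ⟨hS.1 hd, h d hd⟩, fun h d hd => (h hd).2⟩
    have h0' : Stable ev S ↔ ∀ d ∈ S, ∀ x ∈ RingHom.ker ev, d x ∈ RingHom.ker ev := Iff.rfl
    refine ⟨h0, ?_, ?_, fun n => ?_⟩
    · rw [← h0]
      constructor
      · intro h d hd
        exact stable_of_kill (I := RingHom.ker ev) (T := {y | ev y = 0 ∧ ∀ d ∈ S, d y = 0}) (fun x hx => h x hx)
          (fun x hx => hx.1) fun x hx => hx.2 d hd
      · intro h x hx
        have h1 := (stable_iff_gen gr_deg hnd hgr hker).mp (h0'.mp h) (show x ∈ RingHom.ker ev from hx)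
        refine Ideal.span_mono ?_ h1
        rintro y ⟨hy1, hy2, -⟩
        exact ⟨hy1, hy2⟩
    · rw [← h0, h0', stable_iff_dm gr_deg hnd hgr hker]
      refine forall_congr' fun n => ?_
      rw [dm_bot hev, bd_eq hev]
    · have h1 := dm_le_bd gr_deg hnd hgr (I := RingHom.ker ev) n
      rwa [dm_bot hev, bd_eq hev] at h1
  · have hfg : (InvA Fl.toSubmodule).FG := by
      refine ⟨{X}, ?_⟩
      apply le_antisymm
      · rw [Algebra.adjoin_le_iff]
        intro x hx
        rw [Finset.coe_singleton, Set.mem_singleton_iff] at hx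
        rw [hx]
        intro d hd
        obtain ⟨δ, rfl, -⟩ := Fl_struct hd
        change mapD δ (monomial 1 1) = 0
        rw [mapD_monomial, Derivation.map_one_eq_zero, map_zero]
      · intro x hx
        obtain ⟨q, rfl⟩ := Inv_Fl hx
        rw [Finset.coe_singleton]
        have h1 : q.map (algebraMap ℚ Sh) = aeval (X : HH) q := by
          have h2 : Polynomial.mapAlgHom (Algebra.ofId ℚ Sh) = aeval (X : HH) := by
            refine Polynomial.algHom_ext ?_
            rw [aeval_X, coe_mapAlgHom, Polynomial.map_X]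
          exact congrArg (fun f : ℚ[X] →ₐ[ℚ] HH => f q) h2
        rw [h1]
        exact aeval_mem_adjoin_singleton ℚ X
    rw [fg_iff gr_deg nondeg_Fl gr_Fl hfg hker]
    refine exists_congr fun N => ⟨fun h k hk d hd => ⟨hd.1, fun x hx => h k hk d hd x hx⟩,
      fun h k hk d hd x hx => (h k hk hd).2 x hx⟩
  · constructor
    · intro h
      have hinj := inj_of_Q1 hev h
      apply le_antisymm
      · exact fun d hd => hd.1
      · intro d hd
        refine ⟨hd, fun x hx => ?_⟩
        have h1 : x = 0 := hinj (by rw [hx, map_zero])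
        rw [h1, map_zero, map_zero]
    · intro h
      refine ⟨ev, hev, inj_of_stable hev fun d hd => ?_⟩
      rw [← h] at hd
      exact hd.2
  · constructor
    · rintro ⟨φ, h1, h2⟩
      have h3 : {n | finrank ℚ (Z n) = finrank ℚ (deg n)} = Set.univ := by
        ext n
        simp only [Set.mem_ofPred_eq, Set.mem_univ, iff_true]
        rw [dim_Z h1]
        exact (Submodule.equivMapOfInjective φ.toLinearMap h2 (deg n)).finrank_eq.symm
      rw [h3]
      exact Set.infinite_univ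
    · intro h
      exact ⟨ev, hev, inj_of_infinite hev h⟩

end Pool.Agent.H249.MZ.Main

namespace Pool.Agent.H249.MZ

/-- The ring structure of `HH`. -/
noncomputable def ringHH : CommRing HH := inferInstance

/-- The algebra structure of `HH`. -/
noncomputable def algHH : Algebra ℚ HH := inferInstance

/-- The additive group of the derivations of `HH`. -/
noncomputable def dacg : AddCommGroup (Derivation ℚ HH HH) := inferInstance

/-- The vector space of the derivations of `HH`. -/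
noncomputable def dmod : Module ℚ (Derivation ℚ HH HH) := inferInstance

/-- The value of a derivation. -/
noncomputable def dapp (d : Derivation ℚ HH HH) (x : HH) : HH := d x

/-- `S` contains `d`. -/
def lhas (S : LieSubalgebra ℚ (Derivation ℚ HH HH)) (d : Derivation ℚ HH HH) : Prop := d ∈ S

end Pool.Agent.H249.MZ
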