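import Mathlib

/-! Second cohomology of a graded Lie algebra in one weight and new generators. -/

set_option autoImplicit false

namespace Pool.Agent.H249.Coh

open Submodule

section defs

variable {K L : Type} [Field K] [LieRing L] [LieAlgebra K L]

/-- An alternating 2-cocycle of `L` with values in the trivial module. -/
structure IsCocycle (ω : L →ₗ[K] L →ₗ[K] K) : Prop where
  alt : ∀ a, ω a a = 0
  jacobi : ∀ a b c, ω ⁅a, b⁆ c + ω ⁅b, c⁆ a + ω ⁅c, a⁆ b = 0

/-- The functional `α` has weight `k`: it vanishes on all parts of other weights. -/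
def OfWeight (gr : ℕ → Submodule K L) (α : L →ₗ[K] K) (k : ℕ) : Prop :=
  ∀ j, j ≠ k → ∀ a ∈ gr j, α a = 0

/-- The cup products `H¹ × H¹ → H²` vanish in weight `N`: for functionals `α`, `β` that vanish on
all brackets, of weights with sum `N`, the cocycle `α ∧ β` is a coboundary. (There is no relation
of weight `N` with a quadratic part.) -/
def CupZero (gr : ℕ → Submodule K L) (N : ℕ) : Prop :=
  ∀ (i j : ℕ) (α β : L →ₗ[K] K), i + j = N → OfWeight gr α i → OfWeight gr β j →
    (∀ a b : L, α ⁅a, b⁆ = 0) → (∀ a b : L, β ⁅a, b⁆ = 0) →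
    ∃ l : L →ₗ[K] K, ∀ a b, α a * β b - α b * β a = l ⁅a, b⁆

/-- A grading by weights `≥ 1` with its projections. -/
structure IsGrading (gr : ℕ → Submodule K L) (π : ℕ → L →ₗ[K] L) : Prop where
  zero : gr 0 = ⊥
  mul : ∀ i j, ∀ a ∈ gr i, ∀ b ∈ gr j, ⁅a, b⁆ ∈ gr (i + j)
  mem : ∀ N a, π N a ∈ gr N
  self : ∀ N, ∀ a ∈ gr N, π N a = a
  other : ∀ M N, M ≠ N → ∀ a ∈ gr M, π N a = 0
  sum : ∀ a, ∃ S : Finset ℕ, a = ∑ N ∈ S, π N a

variable (K L) in
/-- The span of the brackets. -/
def brk : Submodule K L := span K {c | ∃ a b : L, c = ⁅a, b⁆}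

end defs

variable {K L : Type} [Field K] [LieRing L] [LieAlgebra K L]
  {gr : ℕ → Submodule K L} {π : ℕ → L →ₗ[K] L} {σ : ℕ → L} {I : Set ℕ}

lemma lie_mem_brk (a b : L) : ⁅a, b⁆ ∈ brk K L := subset_span ⟨a, b, rfl⟩

lemma functional (hG : IsGrading gr π) {W : Submodule K L} (hW : ∀ N, ∀ a ∈ W, π N a ∈ W)
    {k : ℕ} {x : L} (hx : x ∈ gr k) (hxW : x ∉ W) :
    ∃ α : L →ₗ[K] K, α x = 1 ∧ (∀ a ∈ W, α a = 0) ∧ ∀ j, j ≠ k → ∀ a ∈ gr j, α a = 0 := by
  obtain ⟨f, hf, hfW⟩ := Submodule.exists_le_ker_of_notMem hxW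
  refine ⟨(f x)⁻¹ • f ∘ₗ π k, ?_, ?_, ?_⟩
  · simp only [LinearMap.smul_apply, LinearMap.comp_apply, smul_eq_mul]
    rw [hG.self k x hx, inv_mul_cancel₀ hf]
  · intro a ha
    simp only [LinearMap.smul_apply, LinearMap.comp_apply, smul_eq_mul]
    rw [LinearMap.mem_ker.1 (hfW (hW k a ha)), mul_zero]
  · intro j hj a ha
    simp only [LinearMap.smul_apply, LinearMap.comp_apply, smul_eq_mul]
    rw [hG.other j k hj a ha, map_zero, mul_zero]

lemma proj_brk (hG : IsGrading gr π) (N : ℕ) : ∀ a ∈ brk K L, π N a ∈ brk K L := by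
  intro a ha
  induction ha using span_induction with
  | mem c hc =>
    obtain ⟨a, b, rfl⟩ := hc
    obtain ⟨S, hS⟩ := hG.sum a
    obtain ⟨T, hT⟩ := hG.sum b
    have e : ⁅a, b⁆ = ∑ i ∈ S, ∑ j ∈ T, ⁅π i a, π j b⁆ := by
      conv_lhs => rw [hS, hT]
      rw [sum_lie]
      exact Finset.sum_congr rfl fun i _ => lie_sum _ _ _
    rw [e, map_sum]
    refine sum_mem fun i _ => ?_
    rw [map_sum]
    refine sum_mem fun j _ => ?_
    by_cases h : i + j = N
    · rw [← h, hG.self _ _ (hG.mul i j _ (hG.mem i a) _ (hG.mem j b))]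
      exact lie_mem_brk _ _
    · rw [hG.other _ _ h _ (hG.mul i j _ (hG.mem i a) _ (hG.mem j b))]
      exact zero_mem _
  | zero => rw [map_zero]; exact zero_mem _
  | add a b _ _ ha hb => rw [map_add]; exact add_mem ha hb
  | smul c a _ ha => rw [map_smul]; exact smul_mem _ c ha

/-- The cup product of two linear functionals. -/
def cup (α β : L →ₗ[K] K) : L →ₗ[K] L →ₗ[K] K :=
  LinearMap.mk₂ K (fun a b => α a * β b - α b * β a)
    (fun a a' b => by simp only [map_add]; ring)
    (fun c a b => by simp only [map_smul, smul_eq_mul]; ring)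
    (fun a b b' => by simp only [map_add]; ring)
    (fun c a b => by simp only [map_smul, smul_eq_mul]; ring)

lemma cup_apply (α β : L →ₗ[K] K) (a b : L) : cup α β a b = α a * β b - α b * β a := rfl

lemma cup_cocycle {α β : L →ₗ[K] K} (hα : ∀ a ∈ brk K L, α a = 0) (hβ : ∀ a ∈ brk K L, β a = 0) :
    IsCocycle (cup α β) where
  alt a := by rw [cup_apply, sub_self]
  jacobi a b c := by
    simp only [cup_apply, hα _ (lie_mem_brk _ _), hβ _ (lie_mem_brk _ _), zero_mul, mul_zero,
      sub_self, add_zero]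

/-- Elements of the subalgebra generated by the `σ i`. -/
lemma mem_gen {a : L} (ha : a ∈ LieSubalgebra.lieSpan K L (σ '' I)) :
    a ∈ span K (σ '' I) ⊔ span K {c | ∃ a ∈ LieSubalgebra.lieSpan K L (σ '' I),
      ∃ b ∈ LieSubalgebra.lieSpan K L (σ '' I), c = ⁅a, b⁆} := by
  induction ha using LieSubalgebra.lieSpan_induction with
  | mem a ha => exact mem_sup_left (subset_span ha)
  | zero => exact zero_mem _
  | add a b _ _ ha hb => exact add_mem ha hb
  | smul c a _ ha => exact smul_mem _ c ha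
  | lie a b ha hb _ _ => exact mem_sup_right (subset_span ⟨a, ha, b, hb, rfl⟩)

lemma span_brk (hG : IsGrading gr π) (hσ : ∀ i ∈ I, σ i ∈ gr i) (hd : ∀ i ∈ I, σ i ∉ brk K L)
    {b : L} (hb : b ∈ span K (σ '' I)) (hbd : b ∈ brk K L) : b = 0 := by
  obtain ⟨f, hf, hfb⟩ := (Finsupp.mem_span_image_iff_linearCombination K).1 hb
  rw [Finsupp.mem_supported] at hf
  rw [Finsupp.linearCombination_apply, Finsupp.sum] at hfb
  have hf0 : ∀ j ∈ f.support, False := by
    intro j hj
    have h1 : π j b = f j • σ j := by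
      rw [← hfb, map_sum, Finset.sum_eq_single j]
      · rw [map_smul, hG.self j _ (hσ j (hf hj))]
      · intro i hi hij
        rw [map_smul, hG.other i j hij _ (hσ i (hf hi)), smul_zero]
      · intro h
        exact absurd hj h
    have h2 : σ j = (f j)⁻¹ • π j b := by
      rw [h1, smul_smul, inv_mul_cancel₀ (Finsupp.mem_support_iff.1 hj), one_smul]
    exact hd j (hf hj) (h2 ▸ smul_mem _ _ (proj_brk hG j b hbd))
  rw [← hfb]
  exact Finset.sum_eq_zero fun j hj => (hf0 j hj).elim

/-- If the cup products vanish in weight `N`, then a sum of brackets `⁅x i, σ i⁆` of weight `N` with new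
generators is not in the subalgebra generated by the `σ i`. -/
theorem new_gens (hG : IsGrading gr π) (hσ : ∀ i ∈ I, σ i ∈ gr i) (hd : ∀ i ∈ I, σ i ∉ brk K L)
    {N : ℕ} (hN : CupZero gr N) (S : Finset ℕ) (hS : ∀ i ∈ S, i ∈ I ∧ i ≤ N) (x : ℕ → L)
    (hx : ∀ i ∈ S, x i ∈ gr (N - i))
    (h : ∑ i ∈ S, ⁅x i, σ i⁆ ∈ LieSubalgebra.lieSpan K L (σ '' I)) :
    ∀ i ∈ S, x i ∈ span K (σ '' I) ⊔ brk K L := by
  intro i hi
  by_contra hxi
  have hW : ∀ N, ∀ a ∈ span K (σ '' I) ⊔ brk K L, π N a ∈ span K (σ '' I) ⊔ brk K L := by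
    intro M a ha
    obtain ⟨b, hb, c, hc, rfl⟩ := mem_sup.1 ha
    rw [map_add]
    refine add_mem (mem_sup_left ?_) (mem_sup_right (proj_brk hG M c hc))
    clear ha
    induction hb using span_induction with
    | mem b hb =>
      obtain ⟨j, hj, rfl⟩ := hb
      by_cases hjM : j = M
      · subst hjM
        rw [hG.self _ _ (hσ j hj)]
        exact subset_span ⟨j, hj, rfl⟩
      · rw [hG.other _ _ hjM _ (hσ j hj)]
        exact zero_mem _
    | zero => rw [map_zero]; exact zero_mem _
    | add a b _ _ ha hb => rw [map_add]; exact add_mem ha hb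
    | smul c a _ ha => rw [map_smul]; exact smul_mem _ c ha
  obtain ⟨α, α1, αW, αj⟩ := functional hG hW (hx i hi) hxi
  obtain ⟨β, β1, βd, βj⟩ := functional hG (proj_brk hG) (hσ i (hS i hi).1) (hd i (hS i hi).1)
  have αd : ∀ a ∈ brk K L, α a = 0 := fun a ha => αW a (mem_sup_right ha)
  have ασ : ∀ j ∈ I, α (σ j) = 0 := fun j hj =>
    αW _ (mem_sup_left (subset_span ⟨j, hj, rfl⟩))
  have αg : ∀ a ∈ LieSubalgebra.lieSpan K L (σ '' I), α a = 0 := by
    intro a ha
    obtain ⟨b, hb, c, hc, rfl⟩ := mem_sup.1 (mem_gen ha)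
    rw [map_add, αW b (mem_sup_left hb), αd c ?_, add_zero]
    refine span_mono ?_ hc
    rintro _ ⟨a, -, b, -, rfl⟩
    exact ⟨a, b, rfl⟩
  obtain ⟨l, hl⟩ := hN (N - i) i α β (by have := (hS i hi).2; omega) αj βj
    (fun a b => αd _ (lie_mem_brk a b)) (fun a b => βd _ (lie_mem_brk a b))
  -- `l` vanishes on the sum
  have h1 : l (∑ j ∈ S, ⁅x j, σ j⁆) = 1 := by
    rw [map_sum, Finset.sum_eq_single i]
    · rw [← hl, α1, β1, ασ i (hS i hi).1, one_mul, zero_mul, sub_zero]
    · intro j hj hji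
      rw [← hl, ασ j (hS j hj).1, βj j hji _ (hσ j (hS j hj).1), mul_zero, zero_mul,
        sub_zero]
    · intro h
      exact absurd hi h
  have h2 : l (∑ j ∈ S, ⁅x j, σ j⁆) = 0 := by
    have hdS : ∑ j ∈ S, ⁅x j, σ j⁆ ∈ brk K L := sum_mem fun j _ => lie_mem_brk _ _
    revert hdS
    generalize ∑ j ∈ S, ⁅x j, σ j⁆ = c at h
    intro hc
    obtain ⟨b, hb, e, he, rfl⟩ := mem_sup.1 (mem_gen h)
    have he0 : l e = 0 := by
      clear h hc
      induction he using span_induction with
      | mem c hc =>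
        obtain ⟨a, ha, b, hb, rfl⟩ := hc
        rw [← hl, αg a ha, αg b hb, zero_mul, zero_mul, sub_zero]
      | zero => rw [map_zero]
      | add a b _ _ ha hb => rw [map_add, ha, hb, add_zero]
      | smul c a _ ha => rw [map_smul, ha, smul_zero]
    have hed : e ∈ brk K L := by
      refine span_mono ?_ he
      rintro _ ⟨a, -, b, -, rfl⟩
      exact ⟨a, b, rfl⟩
    have hbd : b ∈ brk K L := by
      have := sub_mem hc hed
      rwa [add_sub_cancel_right] at this
    have hb0 : b = 0 := span_brk hG hσ hd hb hbd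
    rw [hb0, zero_add, he0]
  rw [h1] at h2
  exact one_ne_zero h2

lemma gr_mono_gen (hG : IsGrading gr π) (hσ : ∀ i ∈ I, σ i ∈ gr i) {k : ℕ}
    (hk : ∀ j < k, gr j ≤ (LieSubalgebra.lieSpan K L (σ '' I)).toSubmodule)
    (hW : ∀ x ∈ gr k, x ∈ span K (σ '' I) ⊔ brk K L) :
    gr k ≤ (LieSubalgebra.lieSpan K L (σ '' I)).toSubmodule := by
  intro x hx
  obtain ⟨b, hb, c, hc, hbc⟩ := mem_sup.1 (hW x hx)
  have hsp : ∀ b ∈ span K (σ '' I), π k b ∈ LieSubalgebra.lieSpan K L (σ '' I) := by
    intro b hb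
    induction hb using span_induction with
    | mem b hb =>
      obtain ⟨j, hj, rfl⟩ := hb
      by_cases hjM : j = k
      · subst hjM
        rw [hG.self _ _ (hσ j hj)]
        exact LieSubalgebra.subset_lieSpan ⟨j, hj, rfl⟩
      · rw [hG.other _ _ hjM _ (hσ j hj)]
        exact zero_mem _
    | zero => rw [map_zero]; exact zero_mem _
    | add a b _ _ ha hb => rw [map_add]; exact add_mem ha hb
    | smul c a _ ha => rw [map_smul]; exact (LieSubalgebra.lieSpan K L (σ '' I)).smul_mem c ha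
  have hdr : ∀ c ∈ brk K L, π k c ∈ LieSubalgebra.lieSpan K L (σ '' I) := by
    intro c hc
    induction hc using span_induction with
    | mem c hc =>
      obtain ⟨a, b, rfl⟩ := hc
      obtain ⟨S, hS⟩ := hG.sum a
      obtain ⟨T, hT⟩ := hG.sum b
      have e : ⁅a, b⁆ = ∑ i ∈ S, ∑ j ∈ T, ⁅π i a, π j b⁆ := by
        conv_lhs => rw [hS, hT]
        rw [sum_lie]
        exact Finset.sum_congr rfl fun i _ => lie_sum _ _ _
      rw [e, map_sum]
      refine sum_mem fun i _ => ?_
      rw [map_sum]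
      refine sum_mem fun j _ => ?_
      by_cases h : i + j = k
      · rw [← h, hG.self _ _ (hG.mul i j _ (hG.mem i a) _ (hG.mem j b))]
        rcases Nat.eq_zero_or_pos i with h0 | h0
        · have : π i a = 0 := by
            have := hG.mem i a
            rw [h0, hG.zero, mem_bot] at this
            rw [h0, this]
          rw [this, zero_lie]
          exact zero_mem _
        · rcases Nat.eq_zero_or_pos j with h1 | h1
          · have : π j b = 0 := by
              have := hG.mem j b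
              rw [h1, hG.zero, mem_bot] at this
              rw [h1, this]
            rw [this, lie_zero]
            exact zero_mem _
          · exact LieSubalgebra.lie_mem _ (hk i (by omega) (hG.mem i a))
              (hk j (by omega) (hG.mem j b))
      · rw [hG.other _ _ h _ (hG.mul i j _ (hG.mem i a) _ (hG.mem j b))]
        exact zero_mem _
    | zero => rw [map_zero]; exact zero_mem _
    | add a b _ _ ha hb => rw [map_add]; exact add_mem ha hb
    | smul c a _ ha => rw [map_smul]; exact (LieSubalgebra.lieSpan K L (σ '' I)).smul_mem c ha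
  have : x = π k b + π k c := by
    rw [← map_add, hbc, hG.self k x hx]
  rw [this]
  exact add_mem (hsp b hb) (hdr c hc)

/-- The subalgebra generated by homogeneous elements is graded. -/
lemma proj_gen (hG : IsGrading gr π) (hσ : ∀ i ∈ I, σ i ∈ gr i) :
    ∀ a ∈ LieSubalgebra.lieSpan K L (σ '' I), ∀ N, π N a ∈ LieSubalgebra.lieSpan K L (σ '' I) := by
  intro a ha
  induction ha using LieSubalgebra.lieSpan_induction with
  | mem a ha =>
    obtain ⟨j, hj, rfl⟩ := ha
    intro N
    by_cases hjM : j = N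
    · subst hjM
      rw [hG.self _ _ (hσ j hj)]
      exact LieSubalgebra.subset_lieSpan ⟨j, hj, rfl⟩
    · rw [hG.other _ _ hjM _ (hσ j hj)]
      exact zero_mem _
  | zero => intro N; rw [map_zero]; exact zero_mem _
  | add a b _ _ ha hb => intro N; rw [map_add]; exact add_mem (ha N) (hb N)
  | smul c a _ ha =>
    intro N
    rw [map_smul]
    exact (LieSubalgebra.lieSpan K L (σ '' I)).smul_mem c (ha N)
  | lie a b _ _ ha hb =>
    intro N
    obtain ⟨S, hS⟩ := hG.sum a
    obtain ⟨T, hT⟩ := hG.sum b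
    have e : ⁅a, b⁆ = ∑ i ∈ S, ∑ j ∈ T, ⁅π i a, π j b⁆ := by
      conv_lhs => rw [hS, hT]
      rw [sum_lie]
      exact Finset.sum_congr rfl fun i _ => lie_sum _ _ _
    rw [e, map_sum]
    refine sum_mem fun i _ => ?_
    rw [map_sum]
    refine sum_mem fun j _ => ?_
    by_cases h : i + j = N
    · rw [← h, hG.self _ _ (hG.mul i j _ (hG.mem i a) _ (hG.mem j b))]
      exact LieSubalgebra.lie_mem _ (ha i) (hb j)
    · rw [hG.other _ _ h _ (hG.mul i j _ (hG.mem i a) _ (hG.mem j b))]
      exact zero_mem _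

/-- Finite codimension: all but finitely many weights are in the subalgebra. -/
lemma finite_weights (hG : IsGrading gr π) (hσ : ∀ i ∈ I, σ i ∈ gr i)
    [FiniteDimensional K (L ⧸ (LieSubalgebra.lieSpan K L (σ '' I)).toSubmodule)] :
    {N | ¬ gr N ≤ (LieSubalgebra.lieSpan K L (σ '' I)).toSubmodule}.Finite := by
  classical
  set g := LieSubalgebra.lieSpan K L (σ '' I) with hg
  have hx : ∀ N : {N | ¬ gr N ≤ g.toSubmodule}, ∃ x ∈ gr N, x ∉ g.toSubmodule := by
    rintro ⟨N, hN⟩
    obtain ⟨x, h1, h2⟩ := SetLike.not_le_iff_exists.1 hN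
    exact ⟨x, h1, h2⟩
  choose x hx1 hx2 using hx
  have hli : LinearIndependent K (fun N => g.toSubmodule.mkQ (x N)) := by
    rw [linearIndependent_iff']
    intro s c hc N hN
    have h1 : ∑ M ∈ s, c M • x M ∈ g.toSubmodule := by
      refine (Submodule.Quotient.mk_eq_zero _).1 ?_
      show g.toSubmodule.mkQ _ = 0
      rw [map_sum]
      simpa only [map_smul] using hc
    have h2 := proj_gen hG hσ _ h1 N
    rw [map_sum, Finset.sum_eq_single N] at h2
    · rw [map_smul, hG.self _ _ (hx1 N)] at h2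
      by_contra hcN
      refine hx2 N ?_
      have := g.smul_mem (c N)⁻¹ h2
      rwa [smul_smul, inv_mul_cancel₀ hcN, one_smul] at this
    · intro M _ hMN
      rw [map_smul, hG.other _ _ (fun h => hMN (Subtype.ext h)) _ (hx1 M), smul_zero]
    · intro h
      exact absurd hN h
  have := hli.finite
  exact Set.toFinite _

/-- Two consecutive weights decide all smaller ones. -/
theorem two_weights (hG : IsGrading gr π) (hσ : ∀ i ∈ I, σ i ∈ gr i)
    (hd : ∀ i ∈ I, σ i ∉ brk K L) (hI : ∀ i, Odd i → 3 ≤ i → i ∈ I) {N : ℕ}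
    (h0 : CupZero gr N) (h1 : CupZero gr (N + 1))
    (g0 : gr N ≤ (LieSubalgebra.lieSpan K L (σ '' I)).toSubmodule)
    (g1 : gr (N + 1) ≤ (LieSubalgebra.lieSpan K L (σ '' I)).toSubmodule) :
    ∀ k, k + 2 ≤ N → gr k ≤ (LieSubalgebra.lieSpan K L (σ '' I)).toSubmodule := by
  intro k
  induction k using Nat.strong_induction_on with
  | _ k ih =>
    intro hk
    refine gr_mono_gen hG hσ (fun j hj => ih j hj (by omega)) fun x hx => ?_
    have key : ∀ M, CupZero gr M → gr M ≤ (LieSubalgebra.lieSpan K L (σ '' I)).toSubmodule →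
        ∀ i, Odd i → 3 ≤ i → k + i = M → x ∈ span K (σ '' I) ⊔ brk K L := by
      intro M hM gM i hi hi3 hM'
      have hiI := hI i hi hi3
      refine new_gens hG hσ hd hM {i} ?_ (fun _ => x) ?_ ?_ i (Finset.mem_singleton_self i)
      · intro j hj
        rw [Finset.mem_singleton] at hj
        subst hj
        exact ⟨hiI, by omega⟩
      · intro j hj
        rw [Finset.mem_singleton] at hj
        subst hj
        rw [show M - j = k by omega]
        exact hx
      · rw [Finset.sum_singleton]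
        refine gM ?_
        rw [← hM']
        exact hG.mul k i x hx _ (hσ i hiI)
    rcases Nat.even_or_odd (N - k) with h | h
    · exact key (N + 1) h1 g1 (N + 1 - k) (by
        rw [show N + 1 - k = (N - k) + 1 by omega]
        exact h.add_one) (by omega) (by omega)
    · refine key N h0 g0 (N - k) h ?_ (by omega)
      rcases Nat.lt_or_ge (N - k) 3 with h3 | h3
      · exfalso
        have : N - k = 2 := by omega
        rw [this] at h
        exact absurd h (by decide)
      · exact h3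

end Pool.Agent.H249.Coh
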