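import Pool.Agent.H249.MZ.Lie

/-!
# When is an ideal stable under a graded Lie algebra of derivations?
-/

set_option autoImplicit false
set_option linter.unusedSectionVars false

open Submodule Module

namespace Pool.Agent.H249.MZ

variable {A : Type} [CommRing A] [Algebra ℚ A] {G : ℕ → Submodule ℚ A}

/-- the ideal is generated, as a space, by its homogeneous elements -/
def Homog (G : ℕ → Submodule ℚ A) (I : Ideal A) : Prop := ∀ x ∈ I, x ∈ ⨆ n, (I.restrictScalars ℚ ⊓ G n)

/-- the bound for the dimension in degree `n` -/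
noncomputable def bd (G : ℕ → Submodule ℚ A) (I : Ideal A) (S : LieSubalgebra ℚ (Derivation ℚ A A)) (n : ℕ) : ℚ :=
  PowerSeries.coeff n (HS G I S.toSubmodule * (prd G S n)⁻¹)

theorem const_prd (S : LieSubalgebra ℚ (Derivation ℚ A A)) (n : ℕ) : PowerSeries.constantCoeff (prd G S n) ≠ 0 := by
  have h1 : PowerSeries.constantCoeff (prd G S n) = 1 := by
    rw [prd, map_prod]
    refine Finset.prod_eq_one fun k hk => ?_
    have h2 : k ≠ 0 := by
      have := (Finset.mem_Icc.mp hk).1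
      omega
    rw [map_pow, map_sub, map_one, map_pow, PowerSeries.constantCoeff_X, zero_pow h2, sub_zero, one_pow]
  rw [h1]
  exact one_ne_zero

theorem gen_le (I : Ideal A) (W : Submodule ℚ (Derivation ℚ A A)) : gen G I W ≤ I :=
  Ideal.span_le.mpr fun _ hx => hx.1

theorem gen_stable (I : Ideal A) (S : LieSubalgebra ℚ (Derivation ℚ A A)) : ∀ d ∈ S, ∀ x ∈ gen G I S.toSubmodule,
    d x ∈ gen G I S.toSubmodule := by
  intro d hd x hx
  refine Submodule.span_induction (p := fun x _ => d x ∈ gen G I S.toSubmodule) ?_ ?_ ?_ ?_ hx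
  · rintro x ⟨-, h2, -⟩
    rw [h2 d hd]
    exact zero_mem _
  · rw [map_zero]
    exact zero_mem _
  · intro x y _ _ hx hy
    rw [map_add]
    exact add_mem hx hy
  · intro a x hxm hx
    rw [smul_eq_mul, Derivation.leibniz, smul_eq_mul, smul_eq_mul]
    exact add_mem (Ideal.mul_mem_left _ _ hx) (Ideal.mul_mem_right _ _ hxm)

theorem gen_homog (hG : Gr G) (I : Ideal A) (W : Submodule ℚ (Derivation ℚ A A)) : Homog G (gen G I W) := by
  intro x hx
  have key : ∀ a : A, ∀ z ∈ gen G I W, (∃ n, z ∈ G n) →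
      a * z ∈ ⨆ n, ((gen G I W).restrictScalars ℚ ⊓ G n) := by
    intro a z hz hn
    obtain ⟨n, hn⟩ := hn
    have ha : a ∈ ⨆ w, G w := by
      rw [hG.top]
      trivial
    refine Submodule.iSup_induction _ (motive := fun a : A => a * z ∈ ⨆ n, ((gen G I W).restrictScalars ℚ ⊓ G n)) ha
      ?_ (by rw [zero_mul]; exact zero_mem _) fun x y hx hy => by rw [add_mul]; exact add_mem hx hy
    intro m b hb
    exact Submodule.mem_iSup_of_mem (m + n) ⟨Ideal.mul_mem_left _ _ hz, hG.mul hb hn⟩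
  refine Submodule.span_induction (p := fun x _ => x ∈ ⨆ n, ((gen G I W).restrictScalars ℚ ⊓ G n)) ?_ ?_ ?_ ?_ hx
  · rintro z hz
    have h1 := key 1 z (Ideal.subset_span hz) hz.2.2
    rwa [one_mul] at h1
  · exact zero_mem _
  · intro x y _ _ hx hy
    exact add_mem hx hy
  · intro a x _ hx
    refine Submodule.iSup_induction _ (motive := fun x : A => a • x ∈ ⨆ n, ((gen G I W).restrictScalars ℚ ⊓ G n)) hx
      ?_ (by rw [smul_zero]; exact zero_mem _) fun x y hx hy => by rw [smul_add]; exact add_mem hx hy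
    rintro m b ⟨hb1, hb2⟩
    exact key a b hb1 ⟨m, hb2⟩

theorem finrank_inf (I : Ideal A) (B : Submodule ℚ A) [FiniteDimensional ℚ B] :
    finrank ℚ (B.map (I.restrictScalars ℚ).mkQ) + finrank ℚ (B ⊓ I.restrictScalars ℚ : Submodule ℚ A) = finrank ℚ B := by
  have h1 := finrank_map_add (I.restrictScalars ℚ).mkQ B
  rwa [mkQ_ker] at h1

section main

variable [Nontrivial A] (hG : Gr G) {S : LieSubalgebra ℚ (Derivation ℚ A A)} (hN : NonDeg G S) (hS : IsGr G S)
  {I : Ideal A} (hI : Homog G I)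

include hG

theorem dm_mono {I' : Ideal A} (h : I' ≤ I) (W : Submodule ℚ (Derivation ℚ A A)) (w : ℕ) : dm G I W w ≤ dm G I' W w := by
  have h0 := hG.fin w
  have hf : FiniteDimensional ℚ (Inv W ⊓ G w : Submodule ℚ A) := Submodule.finiteDimensional_of_le inf_le_right
  have h1 := finrank_inf I (Inv W ⊓ G w)
  have h2 := finrank_inf I' (Inv W ⊓ G w)
  have hf2 : FiniteDimensional ℚ (Inv W ⊓ G w ⊓ I.restrictScalars ℚ : Submodule ℚ A) :=
    Submodule.finiteDimensional_of_le inf_le_left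
  have h3 : finrank ℚ (Inv W ⊓ G w ⊓ I'.restrictScalars ℚ : Submodule ℚ A) ≤
      finrank ℚ (Inv W ⊓ G w ⊓ I.restrictScalars ℚ : Submodule ℚ A) :=
    Submodule.finrank_mono (inf_le_inf_left _ fun x hx => h hx)
  unfold dm
  omega

theorem dm_gen (w : ℕ) : dm G (gen G I S.toSubmodule) S.toSubmodule w = dm G I S.toSubmodule w := by
  have h0 := hG.fin w
  have hf : FiniteDimensional ℚ (Inv S.toSubmodule ⊓ G w : Submodule ℚ A) := Submodule.finiteDimensional_of_le inf_le_right
  have h1 := finrank_inf I (Inv S.toSubmodule ⊓ G w)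
  have h2 := finrank_inf (gen G I S.toSubmodule) (Inv S.toSubmodule ⊓ G w)
  have h3 : (Inv S.toSubmodule ⊓ G w ⊓ (gen G I S.toSubmodule).restrictScalars ℚ : Submodule ℚ A) =
      Inv S.toSubmodule ⊓ G w ⊓ I.restrictScalars ℚ := by
    apply le_antisymm
    · exact inf_le_inf_left _ fun x hx => gen_le I _ hx
    · rintro x ⟨hx1, hx2⟩
      exact ⟨hx1, Ideal.subset_span ⟨hx2, hx1.1, w, hx1.2⟩⟩
  rw [h3] at h2
  unfold dm
  omega

theorem eq_of_dm {I' : Ideal A} (h : I' ≤ I) {w : ℕ} (hw : dm G I ⊥ w = dm G I' ⊥ w) :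
    (I.restrictScalars ℚ ⊓ G w : Submodule ℚ A) ≤ I'.restrictScalars ℚ := by
  have h0 := hG.fin w
  have hb : (Inv ⊥ ⊓ G w : Submodule ℚ A) = G w := inf_eq_right.mpr fun x _ d hd => by
    rw [(Submodule.mem_bot ℚ).mp hd]
    rfl
  have h1 := finrank_inf I (G w)
  have h2 := finrank_inf I' (G w)
  unfold dm at hw
  rw [hb] at hw
  have hf2 : FiniteDimensional ℚ (G w ⊓ I.restrictScalars ℚ : Submodule ℚ A) :=
    Submodule.finiteDimensional_of_le inf_le_left
  have h3 : (G w ⊓ I'.restrictScalars ℚ : Submodule ℚ A) = (G w ⊓ I.restrictScalars ℚ : Submodule ℚ A) :=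
    Submodule.eq_of_le_of_finrank_eq (inf_le_inf_left _ fun x hx => h hx) (by omega)
  rw [inf_comm, ← h3]
  exact inf_le_right

include hN hS

theorem dm_of_stable (hst : ∀ d ∈ S, ∀ x ∈ I, d x ∈ I) (n : ℕ) : (dm G I ⊥ n : ℚ) = bd G I S n := by
  have h1 := chain_HS hG hN hst n
  rw [up_one hS] at h1
  rw [bd, h1, mul_assoc, PowerSeries.mul_inv_cancel _ (const_prd S n), mul_one, HS, PowerSeries.coeff_mk]
  have hb : (Inv ⊥ ⊓ G n : Submodule ℚ A) = Inv (up G S (n + 1)) ⊓ G n := by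
    apply le_antisymm
    · rintro x ⟨-, hx⟩
      exact ⟨up_kill n.lt_succ_self hx, hx⟩
    · rintro x ⟨-, hx⟩
      exact ⟨fun d hd => by
        rw [(Submodule.mem_bot ℚ).mp hd]
        rfl, hx⟩
  unfold dm
  rw [hb]

theorem dm_le_bd (n : ℕ) : (dm G I ⊥ n : ℚ) ≤ bd G I S n := by
  have h1 := dm_of_stable hG hN hS (gen_stable (G := G) I S) n
  have h2 : HS G (gen G I S.toSubmodule) S.toSubmodule = HS G I S.toSubmodule := by
    ext w
    rw [HS, HS, PowerSeries.coeff_mk, PowerSeries.coeff_mk, dm_gen hG]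
  rw [bd, h2] at h1
  rw [bd, ← h1]
  exact_mod_cast dm_mono hG (gen_le I _) ⊥ n

include hI

theorem stable_iff_gen : (∀ d ∈ S, ∀ x ∈ I, d x ∈ I) ↔ I ≤ gen G I S.toSubmodule := by
  constructor
  · intro hst x hx
    refine Submodule.iSup_induction _ (motive := fun x : A => x ∈ gen G I S.toSubmodule) (hI x hx) ?_ (zero_mem _)
      fun a b ha hb => add_mem ha hb
    rintro n y ⟨hy1, hy2⟩
    have h1 : y ∈ gen G I (up G S (n + 1)) := Ideal.subset_span ⟨hy1, up_kill n.lt_succ_self hy2, n, hy2⟩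
    have h2 := chain_gen hG hN hst n h1
    rwa [up_one hS] at h2
  · intro h d hd x hx
    exact gen_le I _ (gen_stable I S d hd x (h hx))

theorem stable_iff_dm : (∀ d ∈ S, ∀ x ∈ I, d x ∈ I) ↔ ∀ n, (dm G I ⊥ n : ℚ) = bd G I S n := by
  constructor
  · intro hst n
    exact dm_of_stable hG hN hS hst n
  · intro h
    rw [stable_iff_gen hG hN hS hI]
    intro x hx
    refine Submodule.iSup_induction _ (motive := fun x : A => x ∈ gen G I S.toSubmodule) (hI x hx) ?_ (zero_mem _)
      fun a b ha hb => add_mem ha hb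
    intro n y hy
    refine eq_of_dm hG (gen_le I _) ?_ hy
    have h1 := dm_of_stable hG hN hS (gen_stable (G := G) I S) n
    have h2 : HS G (gen G I S.toSubmodule) S.toSubmodule = HS G I S.toSubmodule := by
      ext w
      rw [HS, HS, PowerSeries.coeff_mk, PowerSeries.coeff_mk, dm_gen hG]
    rw [bd, h2] at h1
    have h3 := h n
    rw [bd, ← h1] at h3
    exact_mod_cast h3

end main

end Pool.Agent.H249.MZ
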