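import Pool.Agent.H249.MZ.Free
import Pool.Agent.H159.LS.Depth

/-! The double shuffle Lie algebra as a graded Lie algebra. -/

set_option autoImplicit false

namespace Pool.Agent.H249.MZ

open Pool.Agent.H777R4.DM Pool.Agent.H249.Coh

lemma len_add {n : ℕ} {a b : A} (ha : LenHom a n) (hb : LenHom b n) : LenHom (a + b) n := by
  intro u hu
  rw [co_add] at hu
  by_cases h : co a u = 0
  · refine hb u fun h' => hu ?_
    rw [h, h', add_zero]
  · exact ha u h

lemma len_smul {n : ℕ} {a : A} (c : ℚ) (ha : LenHom a n) : LenHom (c • a) n := by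
  intro u hu
  refine ha u fun h' => hu ?_
  rw [co_smul, h', mul_zero]

lemma len_zero (n : ℕ) : LenHom (0 : A) n := fun u hu => absurd (co_zero u) hu

lemma len_neg {n : ℕ} {a : A} (ha : LenHom a n) : LenHom (-a) n := by
  have := len_smul (-1) ha
  simpa using this

lemma len_sub {n : ℕ} {a b : A} (ha : LenHom a n) (hb : LenHom b n) : LenHom (a - b) n := by
  rw [sub_eq_add_neg]
  exact len_add ha (len_neg hb)

lemma len_sum {ι : Type} {n : ℕ} (s : Finset ι) (f : ι → A) (h : ∀ i ∈ s, LenHom (f i) n) :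
    LenHom (∑ i ∈ s, f i) n := by
  classical
  induction s using Finset.induction_on with
  | empty => simpa using len_zero n
  | insert a s ha ih =>
    rw [Finset.sum_insert ha]
    exact len_add (h a (Finset.mem_insert_self _ _)) (ih fun i hi => h i (Finset.mem_insert_of_mem hi))

lemma len_mul {m n : ℕ} {f g : A} (hf : LenHom f m) (hg : LenHom g n) : LenHom (f * g) (m + n) := by
  intro u hu
  obtain ⟨a, b, rfl, h2, h3⟩ := Lead2.co_mul_ne hu
  rw [List.length_append, hf a h2, hg b h3]

lemma len_wd (u : List (Fin 2)) : LenHom (wd u) u.length := by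
  intro v hv
  rw [co_wd] at hv
  split_ifs at hv with h
  · rw [h]
  · exact absurd rfl hv

lemma len_derW {m : ℕ} {f : A} (hf : LenHom f m) (u : List (Fin 2)) :
    LenHom (derW f u) (m + u.length) := by
  induction u with
  | nil => exact len_zero _
  | cons i u ih =>
    have hx : LenHom (x i) 1 := len_wd [i]
    have h2 : LenHom (x i * derW f u) (m + (i :: u).length) := by
      have := len_mul hx ih
      rwa [show 1 + (m + u.length) = m + (i :: u).length by rw [List.length_cons]; omega] at this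
    refine len_add ?_ h2
    by_cases hi : i = 1
    · subst hi
      rw [if_pos rfl]
      have h3 : LenHom (x 1 * f - f * x 1) (m + 1) := by
        refine len_sub ?_ (len_mul hf hx)
        have := len_mul hx hf
        rwa [add_comm 1 m] at this
      have := len_mul h3 (len_wd u)
      rwa [show m + 1 + u.length = m + ((1 : Fin 2) :: u).length by
        rw [List.length_cons]; omega] at this
    · rw [if_neg hi, zero_mul]
      exact len_zero _

lemma len_der {m n : ℕ} {f g : A} (hf : LenHom f m) (hg : LenHom g n) :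
    LenHom (der f g) (m + n) := by
  rw [Lead2.expand g, map_sum]
  refine len_sum _ _ fun w hw => ?_
  rw [map_smul]
  refine len_smul _ ?_
  unfold der
  rw [lext_wd]
  have := len_derW hf (FreeMonoid.toList w)
  have e : (FreeMonoid.toList w).length = n := hg _ (Finsupp.mem_support_iff.1 hw)
  rwa [e] at this

lemma len_ihara {m n : ℕ} {f g : A} (hf : LenHom f m) (hg : LenHom g n) :
    LenHom (ihara f g) (m + n) := by
  unfold ihara
  have h1 := len_mul hg hf
  have h2 := len_der hg hf
  rw [add_comm n m] at h1 h2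
  exact len_sub (len_add (len_sub (len_mul hf hg) h1) (len_der hf hg)) h2

/-- `L` (with the embedding `ι`) is a Lie subalgebra of the double shuffle Lie algebra with the
Ihara bracket, graded by the weight: it contains the homogeneous parts of its elements. -/
structure IsSub {L : Type} [LieRing L] [LieAlgebra ℚ L] (ι : L →ₗ[ℚ] A) : Prop where
  inj : Function.Injective ι
  dm : ∀ a, IsDM (ι a)
  graded : ∀ (N : ℕ) a, ∃ b, ∀ u, co (ι b) u = if u.length = N then co (ι a) u else 0
  bracket : ∀ a b, ι ⁅a, b⁆ = ihara (ι a) (ι b)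

/-- For the whole double shuffle Lie algebra the condition `graded` is automatic. -/
lemma isSub_full {L : Type} [LieRing L] [LieAlgebra ℚ L] {ι : L →ₗ[ℚ] A}
    (inj : Function.Injective ι) (h : ∀ ψ, (∃ a, ι a = ψ) ↔ IsDM ψ)
    (bracket : ∀ a b, ι ⁅a, b⁆ = ihara (ι a) (ι b)) : IsSub ι where
  inj := inj
  dm a := (h _).1 ⟨a, rfl⟩
  graded N a := by
    obtain ⟨b, hb⟩ := (h _).2 (Pool.Agent.H217R3.DMC.taskComp (ι a) N ((h _).1 ⟨a, rfl⟩))
    exact ⟨b, fun u => by rw [hb, co_comp]⟩
  bracket := bracket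

variable {L : Type} [LieRing L] [LieAlgebra ℚ L]

/-- The elements of weight `N`. -/
def wt (ι : L →ₗ[ℚ] A) (N : ℕ) : Submodule ℚ L where
  carrier := {a | LenHom (ι a) N}
  add_mem' := by
    intro a b ha hb
    show LenHom (ι (a + b)) N
    rw [map_add]
    exact len_add ha hb
  zero_mem' := by
    show LenHom (ι 0) N
    rw [map_zero]
    exact len_zero N
  smul_mem' := by
    intro c a ha
    show LenHom (ι (c • a)) N
    rw [map_smul]
    exact len_smul c ha

lemma mem_wt {ι : L →ₗ[ℚ] A} {N : ℕ} {a : L} : a ∈ wt ι N ↔ LenHom (ι a) N := Iff.rfl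

lemma comp_mem {ι : L →ₗ[ℚ] A} (hι : IsSub ι) (N : ℕ) (a : L) :
    comp N (ι a) ∈ LinearMap.range ι := by
  obtain ⟨b, hb⟩ := hι.graded N a
  exact ⟨b, al_ext fun u => by rw [hb, co_comp]⟩

/-- The projection to weight `N`. -/
noncomputable def proj {ι : L →ₗ[ℚ] A} (hι : IsSub ι) (N : ℕ) : L →ₗ[ℚ] L :=
  (LinearEquiv.ofInjective ι hι.inj).symm.toLinearMap ∘ₗ
    LinearMap.codRestrict (LinearMap.range ι) (comp N ∘ₗ ι) (comp_mem hι N)

lemma ι_proj {ι : L →ₗ[ℚ] A} (hι : IsSub ι) (N : ℕ) (a : L) :
    ι (proj hι N a) = comp N (ι a) := by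
  have := LinearEquiv.apply_symm_apply (LinearEquiv.ofInjective ι hι.inj)
    (LinearMap.codRestrict (LinearMap.range ι) (comp N ∘ₗ ι) (comp_mem hι N) a)
  exact congrArg Subtype.val this

lemma comp_self {N : ℕ} {ψ : A} (h : LenHom ψ N) : comp N ψ = ψ := by
  apply al_ext
  intro u
  rw [co_comp]
  by_cases hu : co ψ u = 0
  · rw [hu]; split_ifs <;> rfl
  · rw [if_pos (h u hu)]

lemma comp_ne {M N : ℕ} (hMN : M ≠ N) {ψ : A} (h : LenHom ψ M) : comp N ψ = 0 := by
  apply al_ext
  intro u
  rw [co_comp, co_zero]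
  split_ifs with h1
  · by_contra hu
    exact hMN ((h u hu).symm.trans h1)
  · rfl

lemma sum_comp (ψ : A) : ∃ S : Finset ℕ, ψ = ∑ N ∈ S, comp N ψ := by
  classical
  refine ⟨(MonoidAlgebra.coeff ψ).support.image fun m => (FreeMonoid.toList m).length, ?_⟩
  apply al_ext
  intro u
  have h1 : ∀ (s : Finset ℕ) (F : ℕ → A), co (∑ m ∈ s, F m) u = ∑ m ∈ s, co (F m) u := by
    intro s F
    unfold co
    rw [MonoidAlgebra.coeff_sum, Finsupp.finsetSum_apply]
  rw [h1]
  by_cases hu : co ψ u = 0
  · rw [hu]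
    refine (Finset.sum_eq_zero fun m _ => ?_).symm
    rw [co_comp, hu]
    split_ifs <;> rfl
  · rw [Finset.sum_eq_single u.length]
    · rw [co_comp, if_pos rfl]
    · intro b _ hb
      rw [co_comp, if_neg (Ne.symm hb)]
    · intro h
      exfalso
      refine h (Finset.mem_image.2 ⟨FreeMonoid.ofList u, ?_, rfl⟩)
      rw [Finsupp.mem_support_iff]
      exact hu

lemma isGrading {ι : L →ₗ[ℚ] A} (hι : IsSub ι) : IsGrading (wt ι) (proj hι) where
  zero := by
    rw [Submodule.eq_bot_iff]
    intro a ha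
    apply hι.inj
    rw [map_zero]
    apply al_ext
    intro u
    rw [co_zero]
    by_contra hu
    have h1 := (Pool.Agent.H159.LS.small_dm (hι.dm a) u hu).1
    have h2 := ha u hu
    omega
  mul i j a ha b hb := by
    rw [mem_wt, hι.bracket]
    exact len_ihara ha hb
  mem N a := by
    rw [mem_wt, ι_proj]
    exact comp_lenHom N (ι a)
  self N a ha := by
    apply hι.inj
    rw [ι_proj, comp_self ha]
  other M N h a ha := by
    apply hι.inj
    rw [ι_proj, comp_ne h ha, map_zero]
  sum a := by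
    obtain ⟨S, hS⟩ := sum_comp (ι a)
    refine ⟨S, hι.inj ?_⟩
    rw [map_sum]
    simp only [ι_proj]
    exact hS

/-- Brackets have no part of depth one. -/
lemma der_depth {ι : L →ₗ[ℚ] A} (hι : IsSub ι) {a : L} (ha : a ∈ Coh.brk ℚ L) :
    ι a ∈ Pool.Agent.H159.LS.D 2 := by
  induction ha using Submodule.span_induction with
  | mem c hc =>
    obtain ⟨a, b, rfl⟩ := hc
    rw [hι.bracket]
    have h1 : ∀ a, ι a ∈ Pool.Agent.H159.LS.D 1 := fun a u hu =>
      (Pool.Agent.H159.LS.small_dm (hι.dm a) u hu).2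
    exact Pool.Agent.H159.LS.ihara_mem_D (h1 a) (h1 b)
  | zero => rw [map_zero]; exact Submodule.zero_mem _
  | add a b _ _ ha hb => rw [map_add]; exact Submodule.add_mem _ ha hb
  | smul c a _ ha => rw [map_smul]; exact Submodule.smul_mem _ c ha

end Pool.Agent.H249.MZ
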