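import Pool.Agent.H249.MZ.Fin

/-!
# The algebra is a domain
-/

set_option autoImplicit false
set_option linter.unusedSectionVars false

open Submodule Module

namespace Pool.Agent.H249.MZ

section general

variable {A : Type} [CommRing A] [Algebra ℚ A] {G : ℕ → Submodule ℚ A}

theorem iter_smul (y : Derivation ℚ A A) (N : ℕ) (c : ℚ) (a : A) : (y)^[N] (c • a) = c • (y)^[N] a := by
  induction N with
  | zero => rfl
  | succ N ih => rw [Function.iterate_succ_apply', ih, Derivation.map_smul, Function.iterate_succ_apply']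

theorem leib_top (y : Derivation ℚ A A) : ∀ (n N M : ℕ), N + M = n → ∀ a b : A, (y)^[N + 1] a = 0 → (y)^[M + 1] b = 0 →
    (y)^[n] (a * b) = ((n.choose N : ℕ) : ℚ) • ((y)^[N] a * (y)^[M] b) := by
  intro n
  induction n with
  | zero =>
    intro N M h a b _ _
    have h1 : N = 0 := by omega
    have h2 : M = 0 := by omega
    subst h1 h2
    simp
  | succ n ih =>
    intro N M h a b ha hb
    rw [Function.iterate_succ_apply, Derivation.leibniz, smul_eq_mul, smul_eq_mul, iter_add]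
    have e1 : (y)^[n] (a * y b) = if M = 0 then 0 else ((n.choose N : ℕ) : ℚ) • ((y)^[N] a * (y)^[M] b) := by
      rcases M with _ | M
      · rw [if_pos rfl]
        have h1 : y b = 0 := hb
        rw [h1, mul_zero, iter_zero]
      · rw [if_neg (by omega), ih N M (by omega) a (y b) ha (by rwa [Function.iterate_succ_apply] at hb)]
        rfl
    have e2 : (y)^[n] (b * y a) = if N = 0 then 0 else ((n.choose (N - 1) : ℕ) : ℚ) • ((y)^[N] a * (y)^[M] b) := by
      rcases N with _ | N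
      · rw [if_pos rfl]
        have h1 : y a = 0 := ha
        rw [h1, mul_zero, iter_zero]
      · rw [if_neg (by omega), mul_comm, ih N M (by omega) (y a) b (by rwa [Function.iterate_succ_apply] at ha) hb]
        rfl
    rw [e1, e2]
    rcases N with _ | N
    · have hM : M ≠ 0 := by omega
      rw [if_neg hM, if_pos rfl, Nat.choose_zero_right, Nat.choose_zero_right, add_zero]
    · rw [if_neg (Nat.succ_ne_zero N), Nat.add_sub_cancel, Nat.choose_succ_succ]
      rcases M with _ | M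
      · rw [if_pos rfl, zero_add, Nat.succ_eq_add_one, Nat.choose_eq_zero_of_lt (show n < N + 1 by omega), add_zero]
      · rw [if_neg (Nat.succ_ne_zero M), ← add_smul]
        congr 1
        push_cast
        ring

theorem exists_top {y : Derivation ℚ A A} {a : A} (ha : a ≠ 0) (h : ∃ N, (y)^[N] a = 0) :
    ∃ N, (y)^[N + 1] a = 0 ∧ (y)^[N] a ≠ 0 := by
  classical
  obtain ⟨m, hm⟩ : ∃ m, m = Nat.find h := ⟨_, rfl⟩
  have h1 := Nat.find_spec h
  rw [← hm] at h1
  rcases m with _ | m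
  · exact absurd h1 ha
  · exact ⟨m, h1, fun h2 => Nat.find_min h (by omega) h2⟩

theorem step_dom (hG : Gr G) {W : Submodule ℚ (Derivation ℚ A A)} {y : Derivation ℚ A A} {s : A} {k : ℕ}
    (st : Step G W y s k) (h : ∀ a ∈ Inv (W ⊔ span ℚ {y}), ∀ b ∈ Inv (W ⊔ span ℚ {y}), a * b = 0 → a = 0 ∨ b = 0) :
    ∀ a ∈ Inv W, ∀ b ∈ Inv W, a * b = 0 → a = 0 ∨ b = 0 := by
  intro a ha b hb hab
  by_contra hcon
  push Not at hcon
  obtain ⟨N, h1, h2⟩ := exists_top hcon.1 (nilp hG st.pos st.hy a)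
  obtain ⟨M, h3, h4⟩ := exists_top hcon.2 (nilp hG st.pos st.hy b)
  have h5 := leib_top y (N + M) N M rfl a b h1 h3
  rw [hab, iter_zero] at h5
  have h6 : (y)^[N] a * (y)^[M] b = 0 := by
    have h7 : (((N + M).choose N : ℕ) : ℚ) ≠ 0 := Nat.cast_ne_zero.mpr (Nat.choose_pos (by omega)).ne'
    exact (smul_eq_zero.mp h5.symm).resolve_left h7
  have m1 : (y)^[N] a ∈ Inv (W ⊔ span ℚ {y}) :=
    mem_Inv_sup.mpr ⟨iter_mem st.Wy N ha, mem_Inv_span.mpr (by rwa [Function.iterate_succ_apply'] at h1)⟩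
  have m2 : (y)^[M] b ∈ Inv (W ⊔ span ℚ {y}) :=
    mem_Inv_sup.mpr ⟨iter_mem st.Wy M hb, mem_Inv_span.mpr (by rwa [Function.iterate_succ_apply'] at h3)⟩
  rcases h _ m1 _ m2 h6 with h | h
  · exact h2 h
  · exact h4 h

theorem level_dom [Nontrivial A] (hG : Gr G) {S : LieSubalgebra ℚ (Derivation ℚ A A)} (hN : NonDeg G S) {k : ℕ} (hk : 0 < k)
    (h : ∀ a ∈ Inv (up G S k), ∀ b ∈ Inv (up G S k), a * b = 0 → a = 0 ∨ b = 0) :
    ∀ a ∈ Inv (up G S (k + 1)), ∀ b ∈ Inv (up G S (k + 1)), a * b = 0 → a = 0 ∨ b = 0 := by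
  have hf := fin_deg hG hN hk
  obtain ⟨b, h1, h2, h3⟩ := exists_chain (S.toSubmodule ⊓ Deg G k : Submodule ℚ (Derivation ℚ A A))
  have key : ∀ j ≤ rk G S k, (∀ a ∈ Inv (up G S (k + 1) ⊔ span ℚ (b '' Set.Iio j)),
      ∀ b' ∈ Inv (up G S (k + 1) ⊔ span ℚ (b '' Set.Iio j)), a * b' = 0 → a = 0 ∨ b' = 0) →
      ∀ a ∈ Inv (up G S (k + 1)), ∀ b' ∈ Inv (up G S (k + 1)), a * b' = 0 → a = 0 ∨ b' = 0 := by
    intro j
    induction j with
    | zero =>
      intro _ h
      have h4 : span ℚ (b '' Set.Iio 0) = ⊥ := by simp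
      rwa [h4, sup_bot_eq] at h
    | succ j ih =>
      intro hj h
      apply ih (by omega)
      have hU : span ℚ (b '' Set.Iio j) ≤ S.toSubmodule ⊓ Deg G k := by
        rw [Submodule.span_le]
        rintro _ ⟨i, hi, rfl⟩
        have hi' : i < j := hi
        exact h1 i (by
          change i < rk G S k
          omega)
      obtain ⟨s, st⟩ := exists_step hG hN hk hU (h1 j hj) (h2 j hj)
      rw [span_Iio_succ, ← sup_assoc] at h
      exact step_dom hG st h
  refine key _ le_rfl ?_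
  have h5 : up G S (k + 1) ⊔ span ℚ (b '' Set.Iio (rk G S k)) = up G S k := by
    rw [up_succ S k]
    congr 1
  rwa [h5]

/-- the algebra is a domain if the invariants form a domain -/
theorem dom_of_inv [Nontrivial A] (hG : Gr G) {S : LieSubalgebra ℚ (Derivation ℚ A A)} (hN : NonDeg G S) (hS : IsGr G S)
    (h : ∀ a ∈ Inv S.toSubmodule, ∀ b ∈ Inv S.toSubmodule, a * b = 0 → a = 0 ∨ b = 0) (a b : A) (hab : a * b = 0) :
    a = 0 ∨ b = 0 := by
  have h2 : ∀ n, ∀ a ∈ Inv (up G S (n + 1)), ∀ b ∈ Inv (up G S (n + 1)), a * b = 0 → a = 0 ∨ b = 0 := by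
    intro n
    induction n with
    | zero => rwa [up_one hS]
    | succ n ih => exact level_dom hG hN (Nat.succ_pos n) ih
  obtain ⟨N, hN'⟩ := exists_kill hG S a
  obtain ⟨M, hM⟩ := exists_kill hG S b
  exact h2 (max N M) a (Inv_mono (up_anti (by omega)) hN') b (Inv_mono (up_anti (by omega)) hM) hab

end general

open Polynomial in
/-- the algebra `ℚ[π²] ⊗ Sh` is a domain -/
theorem HH_dom (a b : HH) (hab : a * b = 0) : a = 0 ∨ b = 0 := by
  refine dom_of_inv gr_deg nondeg_Fl gr_Fl ?_ a b hab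
  intro a ha b hb hab
  obtain ⟨q, rfl⟩ := Inv_Fl ha
  obtain ⟨r, rfl⟩ := Inv_Fl hb
  rw [← Polynomial.map_mul] at hab
  have h1 : q * r = 0 := Polynomial.map_injective (algebraMap ℚ Sh) (algebraMap ℚ Sh).injective (by
    rw [hab, Polynomial.map_zero])
  rcases mul_eq_zero.mp h1 with h | h
  · left
    rw [h, Polynomial.map_zero]
  · right
    rw [h, Polynomial.map_zero]

end Pool.Agent.H249.MZ
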