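import Pool.Agent.H249.MZ.Hh

/-!
# Finitely generated kernels, and the stabilizer of the kernel of a graded homomorphism
-/

set_option autoImplicit false
set_option linter.unusedSectionVars false

open Submodule Module

namespace Pool.Agent.H249.MZ

section general

variable {A : Type} [CommRing A] [Algebra ℚ A] {G : ℕ → Submodule ℚ A}

/-- the invariants as a subalgebra -/
def InvA (W : Submodule ℚ (Derivation ℚ A A)) : Subalgebra ℚ A where
  carrier := Inv W
  mul_mem' := Inv_mul
  add_mem' := (Inv W).add_mem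
  algebraMap_mem' := fun c d _ => Derivation.map_algebraMap d c

theorem der_sum {ι : Type} (t : Finset ι) (f : ι → Derivation ℚ A A) (x : A) : (∑ j ∈ t, f j) x = ∑ j ∈ t, f j x := by
  classical
  induction t using Finset.induction_on with
  | empty => simp
  | insert a t ha ih => rw [Finset.sum_insert ha, Finset.sum_insert ha, Derivation.add_apply, ih]

theorem iter_add (y : Derivation ℚ A A) (N : ℕ) (a b : A) : (y)^[N] (a + b) = (y)^[N] a + (y)^[N] b := by
  induction N with
  | zero => rfl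
  | succ N ih => rw [Function.iterate_succ_apply', ih, map_add, Function.iterate_succ_apply', Function.iterate_succ_apply']

theorem iter_ge {y : Derivation ℚ A A} {N M : ℕ} (h : N ≤ M) {x : A} (hx : (y)^[N] x = 0) : (y)^[M] x = 0 := by
  obtain ⟨j, rfl⟩ := Nat.exists_eq_add_of_le h
  rw [add_comm, Function.iterate_add_apply, hx, iter_zero]

theorem nilp (hG : Gr G) {k : ℕ} (hk : 0 < k) {y : Derivation ℚ A A} (hy : y ∈ Deg G k) (x : A) : ∃ N, (y)^[N] x = 0 := by
  have hx : x ∈ ⨆ w, G w := by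
    rw [hG.top]
    trivial
  refine Submodule.iSup_induction _ (motive := fun x : A => ∃ N, (y)^[N] x = 0) hx ?_ ⟨0, rfl⟩ ?_
  · intro n x hx
    exact ⟨n + 1, iter_nil hk hy n x hx⟩
  · rintro a b ⟨N, hN⟩ ⟨M, hM⟩
    refine ⟨max N M, ?_⟩
    rw [iter_add, iter_ge (le_max_left _ _) hN, iter_ge (le_max_right _ _) hM, add_zero]

theorem step_adjoin {W : Submodule ℚ (Derivation ℚ A A)} {y : Derivation ℚ A A} {s : A} {k : ℕ} (st : Step G W y s k) :
    ∀ (N : ℕ) (x : A), x ∈ Inv W → (y)^[N] x = 0 →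
      x ∈ Algebra.adjoin ℚ ((InvA (W ⊔ span ℚ {y}) : Set A) ∪ {s}) := by
  intro N
  induction N with
  | zero =>
    intro x _ h0
    rw [show x = 0 from h0]
    exact zero_mem _
  | succ N ih =>
    intro x hxW h0
    have hye : y ((y)^[N] x) = 0 := by rwa [Function.iterate_succ_apply'] at h0
    obtain ⟨e, he⟩ : ∃ e, e = (y)^[N] x := ⟨_, rfl⟩
    have heW : e ∈ Inv W := by rw [he]; exact iter_mem st.Wy N hxW
    rw [← he] at hye
    have hcW : cc s e N ∈ Inv W := Submodule.smul_mem _ _ (Inv_mul (Inv_pow st.Ws N) heW)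
    have h3 := ih (x - cc s e N) (sub_mem hxW hcW) (by
      rw [iterate_map_sub, iter_cc st.ys hye, ← he, sub_self])
    have h4 : cc s e N ∈ Algebra.adjoin ℚ ((InvA (W ⊔ span ℚ {y}) : Set A) ∪ {s}) := by
      have a1 : s ∈ Algebra.adjoin ℚ ((InvA (W ⊔ span ℚ {y}) : Set A) ∪ {s}) := Algebra.subset_adjoin (Or.inr rfl)
      have a2 : e ∈ Algebra.adjoin ℚ ((InvA (W ⊔ span ℚ {y}) : Set A) ∪ {s}) := by
        refine Algebra.subset_adjoin (Or.inl ?_)
        exact mem_Inv_sup.mpr ⟨heW, mem_Inv_span.mpr hye⟩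
      exact Subalgebra.smul_mem _ (mul_mem (pow_mem a1 N) a2) _
    have h5 := add_mem h3 h4
    rwa [sub_add_cancel] at h5

theorem step_fg (hG : Gr G) {W : Submodule ℚ (Derivation ℚ A A)} {y : Derivation ℚ A A} {s : A} {k : ℕ}
    (st : Step G W y s k) (h : (InvA (W ⊔ span ℚ {y})).FG) : (InvA W).FG := by
  obtain ⟨t, ht⟩ := h
  classical
  refine ⟨t ∪ {s}, ?_⟩
  apply le_antisymm
  · rw [Algebra.adjoin_le_iff]
    intro x hx
    rw [Finset.coe_union, Finset.coe_singleton] at hx
    rcases hx with hx | hx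
    · have h1 : x ∈ InvA (W ⊔ span ℚ {y}) := by
        rw [← ht]
        exact Algebra.subset_adjoin hx
      exact Inv_mono le_sup_left h1
    · rw [Set.mem_singleton_iff] at hx
      rw [hx]
      exact st.Ws
  · intro x hx
    obtain ⟨N, hN⟩ := nilp hG st.pos st.hy x
    have h1 := step_adjoin st N x hx hN
    have h2 : Algebra.adjoin ℚ ((InvA (W ⊔ span ℚ {y}) : Set A) ∪ {s}) ≤ Algebra.adjoin ℚ ((t ∪ {s} : Finset A) : Set A) := by
      rw [Algebra.adjoin_le_iff]
      rintro z (hz | hz)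
      · rw [← ht] at hz
        exact Algebra.adjoin_mono (by rw [Finset.coe_union]; exact Set.subset_union_left) hz
      · exact Algebra.subset_adjoin (by rw [Finset.coe_union, Finset.coe_singleton]; exact Or.inr hz)
    exact h2 h1

theorem level_fg [Nontrivial A] (hG : Gr G) {S : LieSubalgebra ℚ (Derivation ℚ A A)} (hN : NonDeg G S) {k : ℕ} (hk : 0 < k)
    (h : (InvA (up G S k)).FG) : (InvA (up G S (k + 1))).FG := by
  have hf := fin_deg hG hN hk
  obtain ⟨b, h1, h2, h3⟩ := exists_chain (S.toSubmodule ⊓ Deg G k : Submodule ℚ (Derivation ℚ A A))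
  have key : ∀ j ≤ rk G S k, (InvA (up G S (k + 1) ⊔ span ℚ (b '' Set.Iio j))).FG → (InvA (up G S (k + 1))).FG := by
    intro j
    induction j with
    | zero =>
      intro _ h
      have h4 : span ℚ (b '' Set.Iio 0) = ⊥ := by simp
      rwa [h4, sup_bot_eq] at h
    | succ j ih =>
      intro hj h
      apply ih (by omega)
      have hU : span ℚ (b '' Set.Iio j) ≤ S.toSubmodule ⊓ Deg G k := by
        rw [Submodule.span_le]
        rintro _ ⟨i, hi, rfl⟩
        have hi' : i < j := hi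
        exact h1 i (by
          change i < rk G S k
          omega)
      obtain ⟨s, st⟩ := exists_step hG hN hk hU (h1 j hj) (h2 j hj)
      rw [span_Iio_succ, ← sup_assoc] at h
      exact step_fg hG st h
  refine key _ le_rfl ?_
  have h5 : up G S (k + 1) ⊔ span ℚ (b '' Set.Iio (rk G S k)) = up G S k := by
    rw [up_succ S k]
    congr 1
  rwa [h5]

theorem exists_kill (hG : Gr G) (S : LieSubalgebra ℚ (Derivation ℚ A A)) (x : A) : ∃ N, x ∈ Inv (up G S (N + 1)) := by
  have hx : x ∈ ⨆ w, G w := by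
    rw [hG.top]
    trivial
  refine Submodule.iSup_induction _ (motive := fun x : A => ∃ N, x ∈ Inv (up G S (N + 1))) hx ?_ ⟨0, zero_mem _⟩ ?_
  · intro n x hx
    exact ⟨n, up_kill n.lt_succ_self hx⟩
  · rintro a b ⟨N, hN⟩ ⟨M, hM⟩
    exact ⟨max N M, add_mem (Inv_mono (up_anti (by omega)) hN) (Inv_mono (up_anti (by omega)) hM)⟩

theorem exists_kill_finset (hG : Gr G) (S : LieSubalgebra ℚ (Derivation ℚ A A)) (t : Finset A) :
    ∃ N, ∀ x ∈ t, x ∈ Inv (up G S (N + 1)) := by
  classical
  induction t using Finset.induction_on with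
  | empty => exact ⟨0, by simp⟩
  | insert a t _ ih =>
    obtain ⟨N, hN⟩ := ih
    obtain ⟨M, hM⟩ := exists_kill hG S a
    refine ⟨max N M, fun x hx => ?_⟩
    rcases Finset.mem_insert.mp hx with rfl | hx
    · exact Inv_mono (up_anti (by omega)) hM
    · exact Inv_mono (up_anti (by omega)) (hN x hx)

/-- a derivation which kills generators of an ideal preserves the ideal -/
theorem stable_of_kill {I : Ideal A} {d : Derivation ℚ A A} {T : Set A} (hI : I ≤ Ideal.span T) (hT : T ⊆ I)
    (hd : ∀ x ∈ T, d x = 0) : ∀ x ∈ I, d x ∈ I := by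
  intro x hx
  refine Submodule.span_induction (p := fun x _ => d x ∈ I) ?_ ?_ ?_ ?_ (hI hx)
  · intro x hx
    rw [hd x hx]
    exact zero_mem _
  · rw [map_zero]
    exact zero_mem _
  · intro x y _ _ hx hy
    rw [map_add]
    exact add_mem hx hy
  · intro a x hxm hx
    rw [smul_eq_mul, Derivation.leibniz, smul_eq_mul, smul_eq_mul]
    exact add_mem (Ideal.mul_mem_left _ _ hx) (Ideal.mul_mem_right _ _ (Ideal.span_le.mpr hT hxm))

/-- the part of degree larger than `N` of a graded Lie algebra -/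
def tail (G : ℕ → Submodule ℚ A) (S : LieSubalgebra ℚ (Derivation ℚ A A)) (N : ℕ) : LieSubalgebra ℚ (Derivation ℚ A A) :=
  { (up G S (N + 1)) with
    lie_mem' := fun {d y} hd hy => up_anti (by omega) (lie_up_up (k := N + 1) (l := N + 1) hd hy) }

theorem tail_le (S : LieSubalgebra ℚ (Derivation ℚ A A)) (N : ℕ) : tail G S N ≤ S := up_le S (N + 1)

theorem tail_gr (S : LieSubalgebra ℚ (Derivation ℚ A A)) (N : ℕ) : IsGr G (tail G S N) := by
  refine iSup_le fun j => ?_
  refine le_trans ?_ (le_up (G := G) (S := tail G S N) (k := 1) (j := j.1) (by have := j.2; omega))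
  exact le_inf (le_up j.2) inf_le_right

/-- **Finitely generated ideals.** -/
theorem fg_iff [Nontrivial A] (hG : Gr G) {S : LieSubalgebra ℚ (Derivation ℚ A A)} (hN : NonDeg G S) (hS : IsGr G S)
    (hfg : (InvA S.toSubmodule).FG) {I : Ideal A} (hI : Homog G I) :
    I.FG ↔ ∃ N, ∀ k, N < k → ∀ d ∈ S.toSubmodule ⊓ Deg G k, ∀ x ∈ I, d x ∈ I := by
  constructor
  · rintro ⟨t, ht⟩
    obtain ⟨N, hN'⟩ := exists_kill_finset hG S t
    refine ⟨N, fun k hk d hd => stable_of_kill (T := t) ht.ge (fun x hx => ?_) fun x hx => ?_⟩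
    · rw [← ht]
      exact Ideal.subset_span hx
    · exact hN' x hx d (le_up (by omega) hd)
  · rintro ⟨N, h⟩
    have hst : ∀ d ∈ tail G S N, ∀ x ∈ I, d x ∈ I := by
      intro d hd x hx
      refine Submodule.iSup_induction _ (motive := fun d : Derivation ℚ A A => d x ∈ I) hd ?_ (zero_mem _) ?_
      · rintro ⟨j, hj⟩ d hd
        exact h j hj d hd x hx
      · intro a b ha hb
        rw [Derivation.add_apply]
        exact add_mem ha hb
    have hnd : NonDeg G (tail G S N) := fun k hk d hd => hN k hk d ⟨tail_le S N hd.1, hd.2⟩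
    have h1 := (stable_iff_gen hG hnd (tail_gr S N) hI).mp hst
    have h2 : ∀ n, (InvA (up G S (n + 1))).FG := by
      intro n
      induction n with
      | zero => rwa [up_one hS]
      | succ n ih => exact level_fg hG hN (Nat.succ_pos n) ih
    obtain ⟨B, hB⟩ : ∃ B, B = InvA (up G S (N + 1)) := ⟨_, rfl⟩
    have hBfg := h2 N
    rw [← hB] at hBfg
    have h3 : Algebra.FiniteType ℚ B := B.fg_iff_finiteType.mp hBfg
    have h4 : IsNoetherianRing B := Algebra.FiniteType.isNoetherianRing ℚ B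
    have h5 : (I.comap B.val).FG := h4.noetherian _
    have h6 : I = (I.comap B.val).map B.val := by
      apply le_antisymm
      · refine h1.trans (Ideal.span_le.mpr ?_)
        rintro x ⟨hx1, hx2, -⟩
        have hx3 : x ∈ B := by
          rw [hB]
          exact hx2
        exact Ideal.mem_map_of_mem B.val (x := (⟨x, hx3⟩ : B)) hx1
      · exact Ideal.map_comap_le
    rw [h6]
    exact h5.map _

end general

section eval

open Polynomial

variable {A : Type} [CommRing A] [Algebra ℚ A] {G : ℕ → Submodule ℚ A} {ev : A →ₐ[ℚ] ℝ[X]}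
  (hev : ∀ w, ∀ x ∈ G w, ∃ z : ℝ, ev x = monomial w z)

include hev

/-- the stabilizer of the kernel -/
def stab (F : LieSubalgebra ℚ (Derivation ℚ A A)) (ev : A →ₐ[ℚ] ℝ[X]) : LieSubalgebra ℚ (Derivation ℚ A A) where
  carrier := {d | d ∈ F ∧ ∀ x, ev x = 0 → ev (d x) = 0}
  add_mem' := fun {d d'} h h' => ⟨add_mem h.1 h'.1, fun x hx => by
    rw [Derivation.add_apply, map_add, h.2 x hx, h'.2 x hx, add_zero]⟩
  zero_mem' := ⟨zero_mem _, fun x _ => by rw [Derivation.zero_apply, map_zero]⟩
  smul_mem' := fun c d h => ⟨F.smul_mem c h.1, fun x hx => by rw [Derivation.smul_apply, map_smul, h.2 x hx, smul_zero]⟩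
  lie_mem' := fun {d d'} h h' => ⟨F.lie_mem h.1 h'.1, fun x hx => by
    rw [Derivation.commutator_apply, map_sub, h.2 _ (h'.2 x hx), h'.2 _ (h.2 x hx), sub_zero]⟩

theorem mem_stab {F : LieSubalgebra ℚ (Derivation ℚ A A)} {d : Derivation ℚ A A} :
    d ∈ stab F ev ↔ d ∈ F ∧ ∀ x, ev x = 0 → ev (d x) = 0 := Iff.rfl

/-- the homogeneous components of elements of the kernel are in the kernel -/
theorem comp_ker (t : Finset ℕ) (f : ℕ → A) (hf : ∀ n ∈ t, f n ∈ G n) (h0 : ev (∑ n ∈ t, f n) = 0) :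
    ∀ n ∈ t, ev (f n) = 0 := by
  intro n hn
  have h1 : ∀ m ∈ t, m ≠ n → (ev (f m)).coeff n = 0 := by
    intro m hm hmn
    obtain ⟨z, hz⟩ := hev m (f m) (hf m hm)
    rw [hz, coeff_monomial, if_neg hmn]
  have h2 := congrArg (fun p : ℝ[X] => p.coeff n) h0
  simp only [map_sum, Polynomial.finsetSum_coeff, coeff_zero] at h2
  rw [Finset.sum_eq_single n h1 (fun h => absurd hn h)] at h2
  obtain ⟨z, hz⟩ := hev n (f n) (hf n hn)
  rw [hz, coeff_monomial, if_pos rfl] at h2
  rw [hz, h2, map_zero]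

theorem ker_homog (hG : Gr G) : Homog G (RingHom.ker ev) := by
  intro x hx
  have h1 : x ∈ ⨆ w, G w := by
    rw [hG.top]
    trivial
  obtain ⟨f, hf, rfl⟩ := (Submodule.mem_iSup_iff_exists_finsupp _ _).mp h1
  have h2 : ev (∑ n ∈ f.support, f n) = 0 := hx
  have h3 := comp_ker hev f.support f (fun n _ => hf n) h2
  rw [Finsupp.sum]
  exact Submodule.sum_mem _ fun n hn => Submodule.mem_iSup_of_mem n ⟨h3 n hn, hf n⟩

theorem stab_gr (hG : Gr G) {F : LieSubalgebra ℚ (Derivation ℚ A A)} (hF : IsGr G F) : IsGr G (stab F ev) := by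
  intro d hd
  have h1 : d ∈ up G F 1 := hF hd.1
  obtain ⟨f, hf, rfl⟩ := (Submodule.mem_iSup_iff_exists_finsupp _ _).mp h1
  rw [Finsupp.sum]
  refine Submodule.sum_mem _ fun k hk => ?_
  refine le_up (j := k.1) k.2 ⟨⟨(hf k).1, ?_⟩, (hf k).2⟩
  -- homogeneous elements of the kernel first
  have key : ∀ w, ∀ x ∈ G w, ev x = 0 → ev (f k x) = 0 := by
    intro w x hx hx0
    rcases lt_or_ge w k.1 with hlt | hle
    · rw [((hf k).2 w x hx).2 hlt, map_zero]
    have h2 := hd.2 x hx0
    rw [Finsupp.sum] at h2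
    rw [der_sum, map_sum] at h2
    have h4 := congrArg (fun p : ℝ[X] => p.coeff (w - k.1)) h2
    simp only [Polynomial.finsetSum_coeff, coeff_zero] at h4
    rw [Finset.sum_eq_single k] at h4
    · obtain ⟨z, hz⟩ := hev (w - k.1) (f k x) (((hf k).2 w x hx).1 (w - k.1) (by omega))
      rw [hz, coeff_monomial, if_pos rfl] at h4
      rw [hz, h4, map_zero]
    · intro j _ hjk
      rcases lt_or_ge w j.1 with hlt' | hle'
      · rw [((hf j).2 w x hx).2 hlt', map_zero, coeff_zero]
      · obtain ⟨z, hz⟩ := hev (w - j.1) (f j x) (((hf j).2 w x hx).1 (w - j.1) (by omega))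
        rw [hz, coeff_monomial, if_neg]
        intro h5
        exact hjk (Subtype.ext (by omega))
    · intro h5
      exact absurd hk h5
  intro x hx
  have h1 := ker_homog hev hG x hx
  refine Submodule.iSup_induction _ (motive := fun x : A => ev (f k x) = 0) h1 ?_ (by rw [map_zero, map_zero]) ?_
  · rintro n y ⟨hy1, hy2⟩
    exact key n y hy2 hy1
  · intro a b ha hb
    rw [map_add, map_add, ha, hb, add_zero]

theorem dm_ker (hG : Gr G) (W : Submodule ℚ (Derivation ℚ A A)) (w : ℕ) :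
    dm G (RingHom.ker ev) W w = finrank ℚ ((Inv W ⊓ G w).map ev.toLinearMap) := by
  have h0 := hG.fin w
  have hf : FiniteDimensional ℚ (Inv W ⊓ G w : Submodule ℚ A) := Submodule.finiteDimensional_of_le inf_le_right
  have h1 := finrank_inf (RingHom.ker ev) (Inv W ⊓ G w)
  have h2 := finrank_map_add ev.toLinearMap (Inv W ⊓ G w)
  have h3 : LinearMap.ker ev.toLinearMap = (RingHom.ker ev).restrictScalars ℚ := by
    ext x
    rfl
  rw [h3] at h2
  unfold dm
  omega

end eval

end Pool.Agent.H249.MZ
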