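import Pool.Agent.H249.MZ.Coh

/-! The second cohomology of a free Lie algebra vanishes. -/

set_option autoImplicit false

namespace Pool.Agent.H249.Coh

variable {K L : Type} [Field K] [LieRing L] [LieAlgebra K L]

/-- The central extension defined by `ω`. -/
def Ext (_ω : L →ₗ[K] L →ₗ[K] K) : Type := L × K

instance (ω : L →ₗ[K] L →ₗ[K] K) : AddCommGroup (Ext ω) := inferInstanceAs (AddCommGroup (L × K))
instance (ω : L →ₗ[K] L →ₗ[K] K) : Module K (Ext ω) := inferInstanceAs (Module K (L × K))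

/-- The Lie ring structure of the central extension. -/
@[reducible] def extLieRing {ω : L →ₗ[K] L →ₗ[K] K} (h : IsCocycle ω) : LieRing (Ext ω) where
  bracket x y := ((⁅x.1, y.1⁆, ω x.1 y.1) : L × K)
  add_lie x y z := Prod.ext (add_lie x.1 y.1 z.1) (by
    show ω (x.1 + y.1) z.1 = ω x.1 z.1 + ω y.1 z.1
    rw [map_add, LinearMap.add_apply])
  lie_add x y z := Prod.ext (lie_add x.1 y.1 z.1) (by
    show ω x.1 (y.1 + z.1) = ω x.1 y.1 + ω x.1 z.1
    rw [map_add])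
  lie_self x := Prod.ext (lie_self x.1) (h.alt x.1)
  leibniz_lie x y z := Prod.ext (leibniz_lie x.1 y.1 z.1) (by
    show ω x.1 ⁅y.1, z.1⁆ = ω ⁅x.1, y.1⁆ z.1 + ω y.1 ⁅x.1, z.1⁆
    have sk : ∀ a b, ω a b = - ω b a := by
      intro a b
      have := h.alt (a + b)
      simp only [map_add, LinearMap.add_apply, h.alt, zero_add, add_zero] at this
      linear_combination this
    have j := h.jacobi x.1 y.1 z.1
    have e1 : ω y.1 ⁅x.1, z.1⁆ = ω ⁅z.1, x.1⁆ y.1 := by
      rw [sk y.1, ← lie_skew z.1 x.1]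
      simp only [map_neg, LinearMap.neg_apply]
    rw [e1, sk x.1]
    linear_combination -j)

theorem free_h2 {X : Type} (e : FreeLieAlgebra K X ≃ₗ⁅K⁆ L) (ω : L →ₗ[K] L →ₗ[K] K)
    (h : IsCocycle ω) : ∃ l : L →ₗ[K] K, ∀ a b, ω a b = l ⁅a, b⁆ := by
  let _ := extLieRing h
  let _ : LieAlgebra K (Ext ω) :=
    { lie_smul := fun c x y => Prod.ext (lie_smul c x.1 y.1) (by
        show ω x.1 (c • y.1) = c • ω x.1 y.1
        rw [map_smul]) }
  let φ : FreeLieAlgebra K X →ₗ⁅K⁆ Ext ω :=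
    FreeLieAlgebra.lift K (fun x => ((e (FreeLieAlgebra.of K x), 0) : L × K))
  let fst : Ext ω →ₗ⁅K⁆ L := 
    { toFun := fun x => x.1
      map_add' := fun _ _ => rfl
      map_smul' := fun _ _ => rfl
      map_lie' := rfl }
  have h1 : fst.comp φ = (e : FreeLieAlgebra K X →ₗ⁅K⁆ L) := by
    apply FreeLieAlgebra.hom_ext
    intro x
    have h3 : φ (FreeLieAlgebra.of K x) = ((e (FreeLieAlgebra.of K x), 0) : L × K) :=
      FreeLieAlgebra.lift_of_apply _ x
    exact congrArg Prod.fst h3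
  have h2 : ∀ a, (φ a).1 = e a := fun a => LieHom.congr_fun h1 a
  let snd : Ext ω →ₗ[K] K := LinearMap.snd K L K
  refine ⟨snd ∘ₗ (φ : FreeLieAlgebra K X →ₗ[K] Ext ω) ∘ₗ
    (e.symm : L →ₗ[K] FreeLieAlgebra K X), fun a b => ?_⟩
  show ω a b = (φ (e.symm ⁅a, b⁆)).2
  rw [LieEquiv.map_lie, LieHom.map_lie]
  show ω a b = ω (φ (e.symm a)).1 (φ (e.symm b)).1
  rw [h2, h2, LieEquiv.apply_symm_apply, LieEquiv.apply_symm_apply]

end Pool.Agent.H249.Coh
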