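import Mathlib

/-!
# Graded algebras with graded Lie algebras of derivations: invariants, slices and Hilbert series
-/

set_option autoImplicit false
set_option linter.unusedSectionVars false

open Submodule Module

namespace Pool.Agent.H249.MZ

variable {A : Type} [CommRing A] [Algebra ℚ A] (G : ℕ → Submodule ℚ A)

/-- a connected graded algebra with finite dimensional pieces -/
structure Gr : Prop where
  one : (1 : A) ∈ G 0
  mul : ∀ {a b : ℕ} {x y : A}, x ∈ G a → y ∈ G b → x * y ∈ G (a + b)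
  top : ⨆ w, G w = ⊤
  zero : ∀ x ∈ G 0, ∃ c : ℚ, x = algebraMap ℚ A c
  fin : ∀ w, FiniteDimensional ℚ (G w)

/-- the derivations which lower the degree by `k` -/
def Deg (k : ℕ) : Submodule ℚ (Derivation ℚ A A) where
  carrier := {d | ∀ w, ∀ x ∈ G w, (∀ v, v + k = w → d x ∈ G v) ∧ (w < k → d x = 0)}
  add_mem' := fun {d d'} hd hd' w x hx => ⟨fun v hv => by
    rw [Derivation.add_apply]
    exact add_mem ((hd w x hx).1 v hv) ((hd' w x hx).1 v hv), fun h => by
    rw [Derivation.add_apply, (hd w x hx).2 h, (hd' w x hx).2 h, add_zero]⟩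
  zero_mem' := fun w x _ => ⟨fun v _ => by
    rw [Derivation.zero_apply]
    exact zero_mem _, fun _ => rfl⟩
  smul_mem' := fun c d hd w x hx => ⟨fun v hv => by
    rw [Derivation.smul_apply]
    exact (G v).smul_mem c ((hd w x hx).1 v hv), fun h => by
    rw [Derivation.smul_apply, (hd w x hx).2 h, smul_zero]⟩

/-- the elements killed by all derivations in `W` -/
def Inv (W : Submodule ℚ (Derivation ℚ A A)) : Submodule ℚ A where
  carrier := {x | ∀ d ∈ W, d x = 0}
  add_mem' := fun {x y} hx hy d hd => by rw [map_add, hx d hd, hy d hd, add_zero]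
  zero_mem' := fun d _ => map_zero d
  smul_mem' := fun c x hx d hd => by rw [Derivation.map_smul, hx d hd, smul_zero]

theorem mem_Inv {W : Submodule ℚ (Derivation ℚ A A)} {x : A} : x ∈ Inv W ↔ ∀ d ∈ W, d x = 0 := Iff.rfl

theorem mem_Inv_sup {W W' : Submodule ℚ (Derivation ℚ A A)} {x : A} :
    x ∈ Inv (W ⊔ W') ↔ x ∈ Inv W ∧ x ∈ Inv W' := by
  constructor
  · intro h
    exact ⟨fun d hd => h d (Submodule.mem_sup_left hd), fun d hd => h d (Submodule.mem_sup_right hd)⟩
  · rintro ⟨h1, h2⟩ d hd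
    obtain ⟨a, ha, b, hb, rfl⟩ := Submodule.mem_sup.mp hd
    rw [Derivation.add_apply, h1 a ha, h2 b hb, add_zero]

theorem mem_Inv_span {y : Derivation ℚ A A} {x : A} : x ∈ Inv (span ℚ {y}) ↔ y x = 0 := by
  constructor
  · intro h
    exact h y (Submodule.mem_span_singleton_self y)
  · intro h d hd
    obtain ⟨c, rfl⟩ := Submodule.mem_span_singleton.mp hd
    rw [Derivation.smul_apply, h, smul_zero]

theorem Inv_mono {W W' : Submodule ℚ (Derivation ℚ A A)} (h : W ≤ W') : Inv W' ≤ Inv W := fun _ hx d hd =>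
  hx d (h hd)

theorem Inv_mul {W : Submodule ℚ (Derivation ℚ A A)} {x y : A} (hx : x ∈ Inv W) (hy : y ∈ Inv W) :
    x * y ∈ Inv W := fun d hd => by
  rw [Derivation.leibniz, hx d hd, hy d hd, smul_zero, smul_zero, add_zero]

theorem Inv_pow {W : Submodule ℚ (Derivation ℚ A A)} {x : A} (hx : x ∈ Inv W) (n : ℕ) : x ^ n ∈ Inv W := fun d hd => by
  rw [Derivation.leibniz_pow, hx d hd, smul_zero, smul_zero]

variable {G}

theorem Gr.pow (hG : Gr G) {a : ℕ} {x : A} (hx : x ∈ G a) (n : ℕ) : x ^ n ∈ G (n * a) := by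
  induction n with
  | zero => rw [pow_zero, zero_mul]; exact hG.one
  | succ n ih =>
    rw [pow_succ, add_mul, one_mul]
    exact hG.mul ih hx

theorem iter_zero (y : Derivation ℚ A A) (n : ℕ) : (y)^[n] (0 : A) = 0 := by
  induction n with
  | zero => rfl
  | succ n ih => rw [Function.iterate_succ_apply, map_zero, ih]

theorem iter_nil {k : ℕ} (hk : 0 < k) {y : Derivation ℚ A A} (hy : y ∈ Deg G k) :
    ∀ (w : ℕ) (x : A), x ∈ G w → (y)^[w + 1] x = 0 := by
  intro w
  induction w using Nat.strong_induction_on with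
  | _ w ih =>
    intro x hx
    rcases lt_or_ge w k with h | h
    · rw [Function.iterate_succ_apply, (hy w x hx).2 h, iter_zero]
    · have h1 := (hy w x hx).1 (w - k) (by omega)
      have h2 := ih (w - k) (by omega) (y x) h1
      have h3 : w = (k - 1) + (w - k + 1) := by omega
      rw [Function.iterate_succ_apply]
      conv_lhs => rw [h3]
      rw [Function.iterate_add_apply, h2, iter_zero]

theorem iter_deg {k : ℕ} {y : Derivation ℚ A A} (hy : y ∈ Deg G k) :
    ∀ (N w : ℕ) (x : A), x ∈ G w → (y)^[N] x = 0 ∨ ∃ m, m + N * k = w ∧ (y)^[N] x ∈ G m := by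
  intro N
  induction N with
  | zero => exact fun w x hx => Or.inr ⟨w, by omega, hx⟩
  | succ N ih =>
    intro w x hx
    rw [Function.iterate_succ_apply]
    rcases lt_or_ge w k with h | h
    · left
      rw [(hy w x hx).2 h, iter_zero]
    · rcases ih (w - k) (y x) ((hy w x hx).1 (w - k) (by omega)) with h1 | ⟨m, h1, h2⟩
      · exact Or.inl h1
      · refine Or.inr ⟨m, ?_, h2⟩
        rw [add_mul, one_mul]
        omega

theorem iter_mem {y : Derivation ℚ A A} {P : A → Prop} (h : ∀ x, P x → P (y x)) (N : ℕ) {x : A} (hx : P x) :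
    P ((y)^[N] x) := by
  induction N with
  | zero => exact hx
  | succ N ih =>
    rw [Function.iterate_succ_apply']
    exact h _ ih

/-- the divided powers of `s` times `e` -/
noncomputable def cc (s e : A) (N : ℕ) : A := ((N.factorial : ℚ)⁻¹) • (s ^ N * e)

theorem cc_zero (s e : A) : cc s e 0 = e := by simp [cc]

theorem y_cc {y : Derivation ℚ A A} {s e : A} (hs : y s = 1) (he : y e = 0) (N : ℕ) :
    y (cc s e (N + 1)) = cc s e N := by
  unfold cc
  rw [Derivation.map_smul, Derivation.leibniz, he, smul_zero, zero_add, Derivation.leibniz_pow, hs, Nat.add_sub_cancel]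
  rw [smul_eq_mul, smul_eq_mul, mul_one, nsmul_eq_mul]
  have h1 : (((N + 1).factorial : ℕ) : ℚ)⁻¹ = ((N.factorial : ℚ))⁻¹ * ((N + 1 : ℕ) : ℚ)⁻¹ := by
    rw [Nat.factorial_succ, Nat.cast_mul, mul_inv, mul_comm]
  have h2 : e * (((N + 1 : ℕ) : A) * s ^ N) = ((N + 1 : ℕ) : ℚ) • (s ^ N * e) := by
    rw [Algebra.smul_def, map_natCast]
    ring
  rw [h1, h2, mul_smul, smul_smul (((N + 1 : ℕ) : ℚ)⁻¹), inv_mul_cancel₀ (Nat.cast_ne_zero.mpr N.succ_ne_zero), one_smul]

theorem iter_cc {y : Derivation ℚ A A} {s e : A} (hs : y s = 1) (he : y e = 0) (N : ℕ) :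
    (y)^[N] (cc s e N) = e := by
  induction N with
  | zero => exact cc_zero s e
  | succ N ih => rw [Function.iterate_succ_apply, y_cc hs he, ih]

/-- the ideal generated by the homogeneous elements of `I` which are killed by `W` -/
def gen (G : ℕ → Submodule ℚ A) (I : Ideal A) (W : Submodule ℚ (Derivation ℚ A A)) : Ideal A :=
  Ideal.span {x | x ∈ I ∧ x ∈ Inv W ∧ ∃ n, x ∈ G n}

/-- a derivation `y` of degree `k`, with a slice `s` -/
structure Step (G : ℕ → Submodule ℚ A) (W : Submodule ℚ (Derivation ℚ A A)) (y : Derivation ℚ A A) (s : A) (k : ℕ) :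
    Prop where
  pos : 0 < k
  hy : y ∈ Deg G k
  hs : s ∈ G k
  ys : y s = 1
  Ws : s ∈ Inv W
  Wy : ∀ x ∈ Inv W, y x ∈ Inv W

section step

variable (hG : Gr G) {I : Ideal A} {W : Submodule ℚ (Derivation ℚ A A)} {y : Derivation ℚ A A} {s : A} {k : ℕ}
  (st : Step G W y s k)

include hG st

theorem cc_mem {N m : ℕ} {e : A} (he : e ∈ G m) (hW : e ∈ Inv W) :
    cc s e N ∈ G (N * k + m) ∧ cc s e N ∈ Inv W ∧ (e ∈ I → cc s e N ∈ I) := by
  refine ⟨Submodule.smul_mem _ _ (hG.mul (hG.pow st.hs N) he),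
    Submodule.smul_mem _ _ (Inv_mul (Inv_pow st.Ws N) hW), fun h => ?_⟩
  unfold cc
  rw [Algebra.smul_def]
  exact I.mul_mem_left _ (I.mul_mem_left _ h)

theorem step_mem (hI : ∀ x ∈ I, y x ∈ I) : ∀ (N n : ℕ) (x : A), x ∈ G n → x ∈ I → x ∈ Inv W → (y)^[N] x = 0 →
    x ∈ gen G I (W ⊔ span ℚ {y}) := by
  intro N
  induction N with
  | zero =>
    intro n x _ _ _ h0
    rw [show x = 0 from h0]
    exact zero_mem _
  | succ N ih =>
    intro n x hn hxI hxW h0
    have hye : y ((y)^[N] x) = 0 := by rwa [Function.iterate_succ_apply'] at h0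
    obtain ⟨e, he⟩ : ∃ e, e = (y)^[N] x := ⟨_, rfl⟩
    have heI : e ∈ I := by rw [he]; exact iter_mem hI N hxI
    have heW : e ∈ Inv W := by rw [he]; exact iter_mem st.Wy N hxW
    rw [← he] at hye
    rcases iter_deg st.hy N n x hn with h1 | ⟨m, hm, h1⟩
    · exact ih n x hn hxI hxW h1
    rw [← he] at h1
    obtain ⟨c1, c2, c3⟩ := cc_mem hG (I := I) st (N := N) h1 heW
    have h2 : N * k + m = n := by omega
    rw [h2] at c1
    have h3 := ih n (x - cc s e N) (sub_mem hn c1) (sub_mem hxI (c3 heI)) (sub_mem hxW c2) (by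
      rw [iterate_map_sub, iter_cc st.ys hye, ← he, sub_self])
    have h4 : cc s e N ∈ gen G I (W ⊔ span ℚ {y}) := by
      unfold cc
      rw [Algebra.smul_def]
      refine Ideal.mul_mem_left _ _ (Ideal.mul_mem_left _ _ (Ideal.subset_span ⟨heI, ?_, m, h1⟩))
      exact mem_Inv_sup.mpr ⟨heW, mem_Inv_span.mpr hye⟩
    have h5 := add_mem h3 h4
    rwa [sub_add_cancel] at h5

/-- one more derivation: the ideal is still generated by invariants -/
theorem step_gen (hI : ∀ x ∈ I, y x ∈ I) : gen G I W ≤ gen G I (W ⊔ span ℚ {y}) := by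
  refine Ideal.span_le.mpr ?_
  rintro x ⟨h1, h2, n, h3⟩
  exact step_mem hG st hI (n + 1) n x h3 h1 h2 (iter_nil st.pos st.hy n x h3)

/-- `y` is surjective on the elements killed by `W` -/
theorem step_surj : ∀ (N n : ℕ) (x : A), x ∈ G n → x ∈ Inv W → (y)^[N] x = 0 → (x ∈ I ∨ True) → (∀ z ∈ I, y z ∈ I) →
    ∃ b ∈ G (n + k), b ∈ Inv W ∧ (x ∈ I → b ∈ I) ∧ y b = x := by
  intro N
  induction N with
  | zero =>
    intro n x _ _ h0 _ _
    exact ⟨0, zero_mem _, zero_mem _, fun _ => zero_mem _, by rw [map_zero, show x = 0 from h0]⟩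
  | succ N ih =>
    intro n x hn hxW h0 h6 hI
    have hye : y ((y)^[N] x) = 0 := by rwa [Function.iterate_succ_apply'] at h0
    obtain ⟨e, he⟩ : ∃ e, e = (y)^[N] x := ⟨_, rfl⟩
    have heW : e ∈ Inv W := by rw [he]; exact iter_mem st.Wy N hxW
    have heI : x ∈ I → e ∈ I := fun h => by rw [he]; exact iter_mem hI N h
    rw [← he] at hye
    rcases iter_deg st.hy N n x hn with h1 | ⟨m, hm, h1⟩
    · exact ih n x hn hxW h1 h6 hI
    rw [← he] at h1
    obtain ⟨c1, c2, c3⟩ := cc_mem hG (I := I) st (N := N) h1 heW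
    obtain ⟨g1, g2, g3⟩ := cc_mem hG (I := I) st (N := N + 1) h1 heW
    have h2 : N * k + m = n := by omega
    have h2' : (N + 1) * k + m = n + k := by rw [add_mul, one_mul]; omega
    rw [h2] at c1
    rw [h2'] at g1
    obtain ⟨b, b1, b2, b3, b4⟩ := ih n (x - cc s e N) (sub_mem hn c1) (sub_mem hxW c2) (by
      rw [iterate_map_sub, iter_cc st.ys hye, ← he, sub_self]) (Or.inr trivial) hI
    refine ⟨b + cc s e (N + 1), add_mem b1 g1, add_mem b2 g2, fun h => add_mem (b3 (sub_mem h (c3 (heI h)))) (g3 (heI h)), ?_⟩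
    rw [map_add, b4, y_cc st.ys hye, sub_add_cancel]

theorem step_surj' (hI : ∀ z ∈ I, y z ∈ I) {n : ℕ} {x : A} (hn : x ∈ G n) (hW : x ∈ Inv W) :
    ∃ b ∈ G (n + k), b ∈ Inv W ∧ (x ∈ I → b ∈ I) ∧ y b = x :=
  step_surj hG st (n + 1) n x hn hW (iter_nil st.pos st.hy n x hn) (Or.inr trivial) hI

end step

theorem finrank_map_add {V : Type*} {V' : Type*} [AddCommGroup V] [Module ℚ V] [AddCommGroup V'] [Module ℚ V'] (f : V →ₗ[ℚ] V')
    (B : Submodule ℚ V) [FiniteDimensional ℚ B] :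
    finrank ℚ (B.map f) + finrank ℚ (B ⊓ LinearMap.ker f : Submodule ℚ V) = finrank ℚ B := by
  have h1 := LinearMap.finrank_range_add_finrank_ker (f.domRestrict B)
  rw [← h1]
  congr 1
  · rw [LinearMap.range_domRestrict]
  · rw [LinearMap.ker_domRestrict]
    have h2 := (Submodule.comapSubtypeEquivOfLe (inf_le_left : B ⊓ LinearMap.ker f ≤ B)).finrank_eq
    have h3 : Submodule.comap B.subtype (B ⊓ LinearMap.ker f) = Submodule.comap B.subtype (LinearMap.ker f) := by
      rw [Submodule.comap_inf, Submodule.comap_subtype_self, top_inf_eq]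
    rw [← h2, h3]

/-- the dimension of the part of degree `w` of the invariants, modulo `I` -/
noncomputable def dm (G : ℕ → Submodule ℚ A) (I : Ideal A) (W : Submodule ℚ (Derivation ℚ A A)) (w : ℕ) : ℕ :=
  finrank ℚ ((Inv W ⊓ G w).map (I.restrictScalars ℚ).mkQ)

theorem mkQ_ker (I : Ideal A) : LinearMap.ker (I.restrictScalars ℚ).mkQ = I.restrictScalars ℚ := Submodule.ker_mkQ _

theorem mem_ker_mkQ {I : Ideal A} {x : A} : (I.restrictScalars ℚ).mkQ x = 0 ↔ x ∈ I := by
  rw [← LinearMap.mem_ker, mkQ_ker]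
  exact Submodule.restrictScalars_mem _ _ _

section dims

variable (hG : Gr G) {I : Ideal A} {W : Submodule ℚ (Derivation ℚ A A)} {y : Derivation ℚ A A} {s : A} {k : ℕ}
  (st : Step G W y s k)

include hG st

/-- one more derivation: the dimensions -/
theorem step_dim (hI : ∀ x ∈ I, y x ∈ I) (w : ℕ) :
    dm G I W w = dm G I (W ⊔ span ℚ {y}) w + if k ≤ w then dm G I W (w - k) else 0 := by
  have hfin : ∀ w, FiniteDimensional ℚ (G w) := hG.fin
  obtain ⟨B, hB⟩ : ∃ B, B = Inv W ⊓ G w := ⟨_, rfl⟩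
  have hBf : FiniteDimensional ℚ B := by
    rw [hB]
    exact Submodule.finiteDimensional_of_le inf_le_right
  have hB' : Inv (W ⊔ span ℚ {y}) ⊓ G w = B ⊓ LinearMap.ker (y : A →ₗ[ℚ] A) := by
    ext x
    rw [hB, Submodule.mem_inf, mem_Inv_sup, mem_Inv_span, Submodule.mem_inf, Submodule.mem_inf, LinearMap.mem_ker]
    constructor
    · rintro ⟨⟨h1, h2⟩, h3⟩
      exact ⟨⟨h1, h3⟩, h2⟩
    · rintro ⟨⟨h1, h3⟩, h2⟩
      exact ⟨⟨h1, h2⟩, h3⟩
  split_ifs with hk
  swap
  · rw [add_zero]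
    unfold dm
    rw [hB', ← hB, inf_eq_left.mpr]
    intro x hx
    rw [hB] at hx
    exact (st.hy w x hx.2).2 (by omega)
  obtain ⟨q, hq⟩ : ∃ q, q = (I.restrictScalars ℚ).mkQ := ⟨_, rfl⟩
  have hqk : ∀ x, q x = 0 ↔ x ∈ I := fun x => by
    rw [hq]
    exact mem_ker_mkQ
  have e1 := finrank_map_add q B
  have e2 := finrank_map_add (q.comp (y : A →ₗ[ℚ] A)) B
  obtain ⟨K, hK⟩ : ∃ K, K = B ⊓ LinearMap.ker (q.comp (y : A →ₗ[ℚ] A)) := ⟨_, rfl⟩
  have hKf : FiniteDimensional ℚ K := by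
    rw [hK]
    exact Submodule.finiteDimensional_of_le inf_le_left
  have e3 := finrank_map_add q K
  have hKm : ∀ x, x ∈ K ↔ x ∈ B ∧ y x ∈ I := fun x => by
    rw [hK, Submodule.mem_inf, LinearMap.mem_ker, LinearMap.comp_apply, hqk]
    rfl
  have e4 : K ⊓ LinearMap.ker q = B ⊓ LinearMap.ker q := by
    ext x
    rw [Submodule.mem_inf, Submodule.mem_inf, hKm, LinearMap.mem_ker, hqk]
    constructor
    · rintro ⟨⟨h1, h2⟩, h3⟩
      exact ⟨h1, h3⟩
    · rintro ⟨h1, h3⟩
      exact ⟨⟨h1, hI x h3⟩, h3⟩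
  have e5 : B.map (q.comp (y : A →ₗ[ℚ] A)) = (Inv W ⊓ G (w - k)).map q := by
    rw [Submodule.map_comp]
    congr 1
    apply le_antisymm
    · rintro _ ⟨x, hx, rfl⟩
      rw [hB] at hx
      exact ⟨st.Wy x hx.1, (st.hy w x hx.2).1 (w - k) (by omega)⟩
    · rintro x ⟨hx1, hx2⟩
      obtain ⟨b, b1, b2, b3, b4⟩ := step_surj' hG (I := I) st hI hx2 hx1
      have h2 : w - k + k = w := by omega
      rw [h2] at b1
      refine ⟨b, ?_, b4⟩
      rw [hB]
      exact ⟨b2, b1⟩
  have e6 : K.map q = (Inv (W ⊔ span ℚ {y}) ⊓ G w).map q := by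
    rw [hB']
    apply le_antisymm
    · rintro _ ⟨x, hx, rfl⟩
      obtain ⟨h1, h2⟩ := (hKm x).mp hx
      have h1' := h1
      rw [hB] at h1'
      obtain ⟨c, c1, c2, c3, c4⟩ := step_surj' hG (I := I) st hI ((st.hy w x h1'.2).1 (w - k) (by omega)) (st.Wy x h1'.1)
      have h4 : w - k + k = w := by omega
      rw [h4] at c1
      refine ⟨x - c, ⟨sub_mem h1 (by rw [hB]; exact ⟨c2, c1⟩), ?_⟩, ?_⟩
      · change y (x - c) = 0
        rw [map_sub, c4, sub_self]
      · rw [map_sub, (hqk c).mpr (c3 h2), sub_zero]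
    · refine Submodule.map_mono ?_
      rintro x ⟨hx1, hx2⟩
      refine (hKm x).mpr ⟨hx1, ?_⟩
      have h1 : y x = 0 := hx2
      rw [h1]
      exact zero_mem _
  unfold dm
  rw [← hq, ← hB, ← e5, ← e6]
  rw [← hK] at e2
  rw [e4] at e3
  omega

end dims

end Pool.Agent.H249.MZ
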