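import Pool.Agent.H249.MZ.Sh
import Pool.Agent.H249.MZ.Crit

/-!
# The algebra `ℚ[π²] ⊗ Sh` and the Lie algebra generated by the derivations which cut off the first letter
-/

set_option autoImplicit false
set_option linter.unusedSectionVars false

open Submodule Module Polynomial

namespace Pool.Agent.H249.MZ

/-- the weight of a word; the letter `a` has weight `2 a + 3` -/
def wt (w : List ℕ) : ℕ := (w.map fun a => 2 * a + 3).sum

@[simp] theorem wt_nil : wt [] = 0 := rfl
@[simp] theorem wt_cons (a : ℕ) (w : List ℕ) : wt (a :: w) = 2 * a + 3 + wt w := by simp [wt]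

theorem wt_append (u v : List ℕ) : wt (u ++ v) = wt u + wt v := by simp [wt]

/-- the coefficient of a word -/
noncomputable def co (u : List ℕ) : Sh →ₗ[ℚ] ℚ := (Finsupp.lapply u : (List ℕ →₀ ℚ) →ₗ[ℚ] ℚ)

theorem co_word (u v : List ℕ) : co u (word v) = if v = u then 1 else 0 := by
  change (Finsupp.single v (1 : ℚ)) u = _
  rw [Finsupp.single_apply]

theorem Sh.ext_co {x y : Sh} (h : ∀ u, co u x = co u y) : x = y := Finsupp.ext h

instance : Nontrivial Sh := ⟨⟨1, 0, fun h => by
  have h1 := congrArg (co []) h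
  rw [one_def, co_word, map_zero] at h1
  simp at h1⟩⟩

/-- the combinations of the words of weight `n` -/
noncomputable def shDeg (n : ℕ) : Submodule ℚ Sh := span ℚ {x | ∃ u, wt u = n ∧ x = word u}

theorem word_mem (u : List ℕ) : word u ∈ shDeg (wt u) := subset_span ⟨u, rfl, rfl⟩

theorem cons_mem {a n : ℕ} {x : Sh} (hx : x ∈ shDeg n) : cons a x ∈ shDeg (2 * a + 3 + n) := by
  refine Submodule.span_induction (p := fun x _ => cons a x ∈ shDeg (2 * a + 3 + n)) ?_ ?_ ?_ ?_ hx
  · rintro _ ⟨u, hu, rfl⟩
    rw [cons_word]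
    exact subset_span ⟨a :: u, by rw [wt_cons, hu], rfl⟩
  · rw [map_zero]; exact zero_mem _
  · intro x y _ _ hx hy
    rw [map_add]; exact add_mem hx hy
  · intro c x _ hx
    rw [map_smul]; exact Submodule.smul_mem _ _ hx

theorem shw_mem : ∀ (n : ℕ) (u v : List ℕ), u.length + v.length ≤ n → shw u v ∈ shDeg (wt u + wt v) := by
  intro n
  induction n with
  | zero =>
    intro u v h
    have h1 : u = [] := List.length_eq_zero_iff.1 (by omega)
    subst h1
    rw [shw, wt_nil, zero_add]
    exact word_mem v
  | succ n ih =>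
    intro u v h
    rcases u with _ | ⟨a, u⟩
    · rw [shw, wt_nil, zero_add]
      exact word_mem v
    rcases v with _ | ⟨b, v⟩
    · rw [shw, wt_nil, add_zero]
      exact word_mem _
    simp only [List.length_cons] at h
    rw [shw]
    refine add_mem ?_ ?_
    · have h1 := cons_mem (a := a) (ih u (b :: v) (by simp; omega))
      rwa [show 2 * a + 3 + (wt u + wt (b :: v)) = wt (a :: u) + wt (b :: v) by rw [wt_cons a]; omega] at h1
    · have h1 := cons_mem (a := b) (ih (a :: u) v (by simp; omega))
      rwa [show 2 * b + 3 + (wt (a :: u) + wt v) = wt (a :: u) + wt (b :: v) by rw [wt_cons b]; omega] at h1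

theorem co_nil_of_mem {n : ℕ} (hn : 0 < n) {x : Sh} (hx : x ∈ shDeg n) : co [] x = 0 := by
  refine Submodule.span_induction (p := fun x _ => co [] x = 0) ?_ ?_ ?_ ?_ hx
  · rintro _ ⟨u, hu, rfl⟩
    rw [co_word, if_neg]
    rintro rfl
    rw [wt_nil] at hu
    omega
  · rw [map_zero]
  · intro x y _ _ hx hy
    rw [map_add, hx, hy, add_zero]
  · intro c x _ hx
    rw [map_smul, hx, smul_zero]

/-- the algebra `ℚ[π²] ⊗ Sh`; the variable is `π²` -/
abbrev HH : Type := Polynomial Sh

/-- the part of degree `n` -/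
noncomputable def deg (n : ℕ) : Submodule ℚ HH := span ℚ {x | ∃ (i : ℕ) (u : List ℕ), 2 * i + wt u = n ∧ x = monomial i (word u)}

theorem monomial_mem (i n : ℕ) {x : Sh} (hx : x ∈ shDeg n) : (monomial i x : HH) ∈ deg (2 * i + n) := by
  refine Submodule.span_induction (p := fun x _ => (monomial i x : HH) ∈ deg (2 * i + n)) ?_ ?_ ?_ ?_ hx
  · rintro _ ⟨u, hu, rfl⟩
    exact subset_span ⟨i, u, by rw [hu], rfl⟩
  · rw [map_zero]; exact zero_mem _
  · intro x y _ _ hx hy
    rw [map_add]; exact add_mem hx hy
  · intro c x _ hx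
    rw [← smul_monomial]; exact Submodule.smul_mem _ _ hx

theorem words_finite (n : ℕ) : {u : List ℕ | wt u ≤ n}.Finite := by
  induction n using Nat.strong_induction_on with
  | _ n ih =>
    have h1 : {u : List ℕ | wt u ≤ n} ⊆ {[]} ∪ ⋃ a ∈ Finset.range n, (fun u => a :: u) '' {u | wt u ≤ n - 1 ∧ 0 < n} := by
      intro u hu
      rcases u with _ | ⟨a, u⟩
      · exact Or.inl rfl
      · right
        have hu' : wt (a :: u) ≤ n := hu
        rw [wt_cons] at hu'
        simp only [Set.mem_iUnion, Finset.mem_range]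
        exact ⟨a, by omega, u, ⟨by omega, by omega⟩, rfl⟩
    refine Set.Finite.subset ?_ h1
    refine (Set.finite_singleton _).union (Set.Finite.biUnion (Finset.finite_toSet _) fun a _ => Set.Finite.image _ ?_)
    by_cases h0 : 0 < n
    · exact (ih (n - 1) (by omega)).subset fun u hu => hu.1
    · exact Set.finite_empty.subset fun u hu => absurd hu.2 h0

theorem gr_deg : Gr deg where
  one := subset_span ⟨0, [], rfl, rfl⟩
  mul := fun {a b x y} hx hy => by
    refine Submodule.span_induction₂ (p := fun x y _ _ => x * y ∈ deg (a + b)) ?_ ?_ ?_ ?_ ?_ ?_ ?_ hx hy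
    · rintro _ _ ⟨i, u, h1, rfl⟩ ⟨j, v, h2, rfl⟩
      rw [monomial_mul_monomial, mul_def, sh_word]
      have h3 := monomial_mem (i + j) _ (shw_mem _ u v le_rfl)
      rwa [show 2 * (i + j) + (wt u + wt v) = a + b by omega] at h3
    · intro y _
      rw [zero_mul]; exact zero_mem _
    · intro x _
      rw [mul_zero]; exact zero_mem _
    · intro x y z _ _ _ h1 h2
      rw [add_mul]; exact add_mem h1 h2
    · intro x y z _ _ _ h1 h2
      rw [mul_add]; exact add_mem h1 h2
    · intro c x y _ _ h
      rw [smul_mul_assoc]; exact Submodule.smul_mem _ _ h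
    · intro c x y _ _ h
      rw [mul_smul_comm]; exact Submodule.smul_mem _ _ h
  top := by
    rw [eq_top_iff]
    rintro p -
    refine Polynomial.induction_on' (motive := fun p : HH => p ∈ ⨆ w, deg w) p (fun p q hp hq => add_mem hp hq) ?_
    intro i x
    refine Sh.induction (p := fun x => (monomial i x : HH) ∈ ⨆ w, deg w) x ?_ ?_ ?_
    · rw [map_zero]; exact zero_mem _
    · intro f g hf hg
      rw [map_add]; exact add_mem hf hg
    · intro c w
      rw [← smul_monomial]
      exact Submodule.smul_mem _ _ (Submodule.mem_iSup_of_mem (2 * i + wt w) (subset_span ⟨i, w, rfl, rfl⟩))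
  zero := fun x hx => by
    refine Submodule.span_induction (p := fun x _ => ∃ c : ℚ, x = algebraMap ℚ HH c) ?_ ?_ ?_ ?_ hx
    · rintro _ ⟨i, u, h1, rfl⟩
      refine ⟨1, ?_⟩
      have h2 : i = 0 := by omega
      have h3 : u = [] := by
        rcases u with _ | ⟨a, u⟩
        · rfl
        · rw [wt_cons] at h1
          omega
      rw [h2, h3, map_one]
      rfl
    · exact ⟨0, by rw [map_zero]⟩
    · rintro x y _ _ ⟨c, rfl⟩ ⟨d, rfl⟩
      exact ⟨c + d, by rw [map_add]⟩
    · rintro a x _ ⟨c, rfl⟩
      exact ⟨a * c, by rw [map_mul, Algebra.smul_def]⟩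
  fin := fun w => by
    refine FiniteDimensional.span_of_finite ℚ ?_
    have h1 : {x : HH | ∃ (i : ℕ) (u : List ℕ), 2 * i + wt u = w ∧ x = monomial i (word u)} ⊆
        (fun p : ℕ × List ℕ => (monomial p.1 (word p.2) : HH)) '' (Set.Iic w ×ˢ {u : List ℕ | wt u ≤ w}) := by
      rintro _ ⟨i, u, h1, rfl⟩
      exact ⟨(i, u), ⟨by change i ≤ w; omega, by change wt u ≤ w; omega⟩, rfl⟩
    exact Set.Finite.subset (Set.Finite.image _ ((Set.finite_Iic w).prod (words_finite w))) h1

/-- a linear map applied to the coefficients -/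
noncomputable def cw (f : Sh →ₗ[ℚ] Sh) : HH →ₗ[ℚ] HH where
  toFun p := p.sum fun i a => monomial i (f a)
  map_add' p q := by
    rw [Polynomial.sum_add_index _ _ _ (by simp) (by simp)]
  map_smul' c p := by
    have h1 : ∀ (p : HH) (n : ℕ), (p.sum fun i a => (monomial i (f a) : HH)).coeff n = f (p.coeff n) := by
      intro p n
      rw [Polynomial.sum_def, Polynomial.finsetSum_coeff]
      simp only [coeff_monomial]
      rw [Finset.sum_ite_eq']
      split_ifs with h
      · rfl
      · rw [notMem_support_iff.mp h, map_zero]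
    ext1
    rw [h1, RingHom.id_apply, coeff_smul, coeff_smul, h1, map_smul]

theorem coeff_cw (f : Sh →ₗ[ℚ] Sh) (p : HH) (n : ℕ) : (cw f p).coeff n = f (p.coeff n) := by
  change (p.sum fun i a => (monomial i (f a) : HH)).coeff n = f (p.coeff n)
  rw [Polynomial.sum_def, Polynomial.finsetSum_coeff]
  simp only [coeff_monomial]
  rw [Finset.sum_ite_eq']
  split_ifs with h
  · rfl
  · rw [notMem_support_iff.mp h, map_zero]

theorem cw_monomial (f : Sh →ₗ[ℚ] Sh) (i : ℕ) (x : Sh) : cw f (monomial i x) = monomial i (f x) := by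
  ext1
  rw [coeff_cw, coeff_monomial, coeff_monomial]
  split_ifs
  · rfl
  · rw [map_zero]

/-- the extension of a derivation of the shuffle algebra -/
noncomputable def mapD (δ : Derivation ℚ Sh Sh) : Derivation ℚ HH HH :=
  Derivation.mk' (cw (δ : Sh →ₗ[ℚ] Sh)) fun p q => by
    ext1 
    rw [coeff_cw, coeff_mul, smul_eq_mul, smul_eq_mul, coeff_add, coeff_mul, mul_comm q, coeff_mul, map_sum,
      ← Finset.sum_add_distrib]
    refine Finset.sum_congr rfl fun ij _ => ?_
    rw [coeff_cw, coeff_cw]
    change δ _ = _ * δ _ + δ _ * _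
    rw [Derivation.leibniz, smul_eq_mul, smul_eq_mul, mul_comm (q.coeff ij.2)]

theorem coeff_mapD (δ : Derivation ℚ Sh Sh) (p : HH) (n : ℕ) : (mapD δ p).coeff n = δ (p.coeff n) := coeff_cw _ _ _

theorem mapD_monomial (δ : Derivation ℚ Sh Sh) (i : ℕ) (x : Sh) : mapD δ (monomial i x) = monomial i (δ x) :=
  cw_monomial _ _ _

theorem mapD_lie (δ δ' : Derivation ℚ Sh Sh) : ⁅mapD δ, mapD δ'⁆ = mapD ⁅δ, δ'⁆ := by
  refine Derivation.ext fun p => ?_
  ext1 
  rw [Derivation.commutator_apply, coeff_sub, coeff_mapD, coeff_mapD, coeff_mapD, coeff_mapD, coeff_mapD,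
    Derivation.commutator_apply]

/-- the derivation `∂_a` of `HH` which cuts off the first letter if it is `a`, and sends the other words to zero -/
noncomputable def cut (a : ℕ) : Derivation ℚ HH HH := mapD (cutD a)

/-- the Lie algebra generated by the `∂_a` -/
noncomputable def Fl : LieSubalgebra ℚ (Derivation ℚ HH HH) := LieSubalgebra.lieSpan ℚ _ (Set.range cut)

theorem cut_mem_Fl (a : ℕ) : cut a ∈ Fl := LieSubalgebra.subset_lieSpan ⟨a, rfl⟩

theorem cut_deg (a : ℕ) : cut a ∈ Deg deg (2 * a + 3) := by
  intro w x hx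
  refine Submodule.span_induction (p := fun x _ => (∀ v, v + (2 * a + 3) = w → cut a x ∈ deg v) ∧
    (w < 2 * a + 3 → cut a x = 0)) ?_ ?_ ?_ ?_ hx
  · rintro _ ⟨i, u, h1, rfl⟩
    have h2 : cut a (monomial i (word u)) = monomial i (cutw a u) := by
      rw [cut, mapD_monomial, cutD_word]
    rw [h2]
    rcases u with _ | ⟨b, u⟩
    · rw [cutw, map_zero]
      exact ⟨fun _ _ => zero_mem _, fun _ => rfl⟩
    · rw [cutw]
      rw [wt_cons] at h1
      split_ifs with h3
      · subst h3
        refine ⟨fun v hv => subset_span ⟨i, u, by omega, rfl⟩, fun h => by omega⟩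
      · rw [map_zero]
        exact ⟨fun _ _ => zero_mem _, fun _ => rfl⟩
  · rw [map_zero]
    exact ⟨fun _ _ => zero_mem _, fun _ => rfl⟩
  · intro x y _ _ hx hy
    rw [map_add]
    exact ⟨fun v hv => add_mem (hx.1 v hv) (hy.1 v hv), fun h => by rw [hx.2 h, hy.2 h, add_zero]⟩
  · intro c x _ hx
    rw [Derivation.map_smul]
    exact ⟨fun v hv => Submodule.smul_mem _ _ (hx.1 v hv), fun h => by rw [hx.2 h, smul_zero]⟩

theorem gr_Fl : IsGr deg Fl := by
  let K : LieSubalgebra ℚ (Derivation ℚ HH HH) :=
    { (up deg Fl 1) with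
      lie_mem' := fun {d y} hd hy => by
        exact up_anti (by omega) (lie_up_up (k := 1) (l := 1) hd hy) }
  have h1 : Fl ≤ K := by
    rw [Fl, LieSubalgebra.lieSpan_le]
    rintro _ ⟨a, rfl⟩
    exact le_up (show 1 ≤ 2 * a + 3 by omega) ⟨cut_mem_Fl a, cut_deg a⟩
  exact h1

/-- the derivations in `Fl` come from derivations of the shuffle algebra which commute with cutting at the back -/
theorem Fl_struct {d : Derivation ℚ HH HH} (hd : d ∈ Fl) : ∃ δ : Derivation ℚ Sh Sh, d = mapD δ ∧
    ∀ b x, δ (ext (backw b) x) = ext (backw b) (δ x) := by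
  let K : LieSubalgebra ℚ (Derivation ℚ HH HH) :=
    { carrier := {d | ∃ δ : Derivation ℚ Sh Sh, d = mapD δ ∧ ∀ b x, δ (ext (backw b) x) = ext (backw b) (δ x)}
      add_mem' := by
        rintro _ _ ⟨δ, rfl, h⟩ ⟨δ', rfl, h'⟩
        refine ⟨δ + δ', Derivation.ext fun p => ?_, fun b x => ?_⟩
        · ext1
          rw [Derivation.add_apply, coeff_add, coeff_mapD, coeff_mapD, coeff_mapD, Derivation.add_apply]
        · rw [Derivation.add_apply, Derivation.add_apply, h, h', map_add]
      zero_mem' := ⟨0, Derivation.ext fun p => by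
        ext1
        rw [coeff_mapD]
        rfl, fun b x => by rw [Derivation.zero_apply, Derivation.zero_apply, map_zero]⟩
      smul_mem' := by
        rintro c _ ⟨δ, rfl, h⟩
        refine ⟨c • δ, Derivation.ext fun p => ?_, fun b x => ?_⟩
        · ext1
          rw [Derivation.smul_apply, coeff_smul, coeff_mapD, coeff_mapD, Derivation.smul_apply]
        · rw [Derivation.smul_apply, Derivation.smul_apply, h, map_smul]
      lie_mem' := by
        rintro _ _ ⟨δ, rfl, h⟩ ⟨δ', rfl, h'⟩
        refine ⟨⁅δ, δ'⁆, mapD_lie δ δ', fun b x => ?_⟩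
        rw [Derivation.commutator_apply, Derivation.commutator_apply, h', h, h, h', map_sub] }
  have h1 : Fl ≤ K := by
    rw [Fl, LieSubalgebra.lieSpan_le]
    rintro _ ⟨a, rfl⟩
    exact ⟨cutD a, rfl, fun b x => cut_back a b x⟩
  exact h1 hd

theorem co_back (b : ℕ) (x : Sh) (v : List ℕ) : co v (ext (backw b) x) = co (v ++ [b]) x := by
  have h : (co v).comp (ext (backw b)) = co (v ++ [b]) := lin_ext fun w => by
    rw [LinearMap.comp_apply, ext_word, backw, co_word]
    rcases List.eq_nil_or_concat w with rfl | ⟨u, a, rfl⟩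
    · simp
    · simp only [List.concat_eq_append, List.getLast?_append, List.getLast?_singleton, List.dropLast_concat, Option.some_or]
      by_cases h1 : a = b
      · subst h1
        rw [if_pos rfl, co_word]
        simp
      · rw [if_neg (by simpa using h1), map_zero, if_neg]
        intro h2
        exact h1 (by simpa using (List.append_inj_right' h2 rfl))
  exact congrArg (fun f : Sh →ₗ[ℚ] ℚ => f x) h

theorem co_cut (a : ℕ) (x : Sh) (v : List ℕ) : co v (cutD a x) = co (a :: v) x := by
  have h : (co v).comp (ext (cutw a)) = co (a :: v) := lin_ext fun w => by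
    rw [LinearMap.comp_apply, ext_word, co_word]
    rcases w with _ | ⟨b, w⟩
    · rw [cutw, map_zero]
      simp
    · rw [cutw]
      by_cases h1 : b = a
      · rw [if_pos h1, co_word]
        simp [h1]
      · rw [if_neg h1, map_zero, if_neg]
        simp [h1]
  exact congrArg (fun f : Sh →ₗ[ℚ] ℚ => f x) h

theorem nondeg_Fl : NonDeg deg Fl := by
  intro k hk d hd h0
  obtain ⟨δ, rfl, hδ⟩ := Fl_struct hd.1
  have key : ∀ n, ∀ u : List ℕ, wt u = n → δ (word u) = 0 := by
    intro n
    induction n using Nat.strong_induction_on with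
    | _ n ih =>
      intro u hu
      have hm : (monomial 0 (word u) : HH) ∈ deg n := subset_span ⟨0, u, by rw [hu]; omega, rfl⟩
      have e1 : mapD δ (monomial 0 (word u)) = 0 → δ (word u) = 0 := by
        intro h
        rw [mapD_monomial] at h
        have h1 := congrArg (fun p : HH => p.coeff 0) h
        simpa using h1
      rcases lt_trichotomy n k with h | h | h
      · exact e1 ((hd.2 n _ hm).2 h)
      · subst h
        exact e1 (h0 _ hm)
      · have h1 := (hd.2 n _ hm).1 (n - k) (by omega)
        rw [mapD_monomial] at h1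
        have h2 : ∀ p ∈ deg (n - k), p.coeff 0 ∈ shDeg (n - k) := by
          intro p hp
          refine Submodule.span_induction (p := fun p _ => p.coeff 0 ∈ shDeg (n - k)) ?_ ?_ ?_ ?_ hp
          · rintro _ ⟨i, v, h1, rfl⟩
            rw [coeff_monomial]
            split_ifs with h3
            · exact subset_span ⟨v, by omega, rfl⟩
            · exact zero_mem _
          · rw [coeff_zero]; exact zero_mem _
          · intro x y _ _ hx hy
            rw [coeff_add]; exact add_mem hx hy
          · intro c x _ hx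
            rw [coeff_smul]; exact Submodule.smul_mem _ _ hx
        have h3 := h2 _ h1
        rw [coeff_monomial, if_pos rfl] at h3
        refine Sh.ext_co fun v => ?_
        rw [map_zero]
        rcases List.eq_nil_or_concat v with rfl | ⟨v', b, rfl⟩
        · exact co_nil_of_mem (by omega) h3
        · rw [List.concat_eq_append, ← co_back, ← hδ, ext_word, backw]
          split_ifs with h4
          · rcases List.eq_nil_or_concat u with rfl | ⟨u', c, rfl⟩
            · simp at h4
            · rw [List.concat_eq_append, wt_append] at hu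
              rw [List.concat_eq_append, List.dropLast_concat, ih (wt u') (by
                rw [wt_cons] at hu
                omega) u' rfl, map_zero]
          · rw [map_zero, map_zero]
  refine Derivation.ext fun p => ?_
  ext1
  rw [coeff_mapD, Derivation.zero_apply, coeff_zero]
  refine Sh.induction (p := fun x => δ x = 0) _ (map_zero _) (fun f g hf hg => by rw [map_add, hf, hg, add_zero]) ?_
  intro c w
  rw [Derivation.map_smul, key _ w rfl, smul_zero]

/-- the invariants of the whole Lie algebra are the polynomials in `π²` -/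
theorem Inv_Fl {x : HH} (hx : x ∈ Inv Fl.toSubmodule) : ∃ q : Polynomial ℚ, x = q.map (algebraMap ℚ Sh) := by
  refine ⟨∑ i ∈ x.support, monomial i (co [] (x.coeff i)), ?_⟩
  ext1 n
  have h1 : ∀ z : Sh, (∀ a, cutD a z = 0) → z = algebraMap ℚ Sh (co [] z) := by
    intro z hz
    refine Sh.ext_co fun v => ?_
    rw [Algebra.algebraMap_eq_smul_one, map_smul, one_def, co_word]
    rcases v with _ | ⟨a, v⟩
    · simp
    · rw [← co_cut, hz a, map_zero]
      simp
  have h2 : ∀ a, cutD a (x.coeff n) = 0 := fun a => by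
    have h3 := hx (cut a) (cut_mem_Fl a)
    have h4 := congrArg (fun p : HH => p.coeff n) h3
    simp only [cut, coeff_mapD, coeff_zero] at h4
    exact h4
  rw [coeff_map, Polynomial.finsetSum_coeff]
  simp only [coeff_monomial]
  rw [Finset.sum_ite_eq']
  split_ifs with h
  · exact h1 _ h2
  · rw [notMem_support_iff.mp h, map_zero]

end Pool.Agent.H249.MZ
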