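import Pool.Agent.H249.MZ.Gen

/-!
# Graded Lie algebras of derivations: generation by invariants and Hilbert series
-/

set_option autoImplicit false
set_option linter.unusedSectionVars false

open Submodule Module

namespace Pool.Agent.H249.MZ

variable {A : Type} [CommRing A] [Algebra ℚ A] {G : ℕ → Submodule ℚ A}

/-- the span of the elements of `S` of degree at least `k` -/
def up (G : ℕ → Submodule ℚ A) (S : LieSubalgebra ℚ (Derivation ℚ A A)) (k : ℕ) : Submodule ℚ (Derivation ℚ A A) :=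
  ⨆ j : {j : ℕ // k ≤ j}, S.toSubmodule ⊓ Deg G j.1

/-- `S` is the sum of its homogeneous parts of positive degree -/
def IsGr (G : ℕ → Submodule ℚ A) (S : LieSubalgebra ℚ (Derivation ℚ A A)) : Prop := S.toSubmodule ≤ up G S 1

theorem up_le (S : LieSubalgebra ℚ (Derivation ℚ A A)) (k : ℕ) : up G S k ≤ S.toSubmodule := iSup_le fun _ => inf_le_left

theorem le_up {S : LieSubalgebra ℚ (Derivation ℚ A A)} {k j : ℕ} (h : k ≤ j) : S.toSubmodule ⊓ Deg G j ≤ up G S k :=
  le_iSup (fun j : {j : ℕ // k ≤ j} => S.toSubmodule ⊓ Deg G j.1) ⟨j, h⟩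

theorem up_anti {S : LieSubalgebra ℚ (Derivation ℚ A A)} {k l : ℕ} (h : k ≤ l) : up G S l ≤ up G S k :=
  iSup_le fun j => le_up (h.trans j.2)

theorem up_succ (S : LieSubalgebra ℚ (Derivation ℚ A A)) (k : ℕ) :
    up G S k = up G S (k + 1) ⊔ (S.toSubmodule ⊓ Deg G k) := by
  apply le_antisymm
  · refine iSup_le fun j => ?_
    rcases j.2.eq_or_lt with h | h
    · rw [← h]
      exact le_sup_right
    · exact (le_up h).trans le_sup_left
  · exact sup_le (up_anti k.le_succ) (le_up le_rfl)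

theorem up_one {S : LieSubalgebra ℚ (Derivation ℚ A A)} (hS : IsGr G S) : up G S 1 = S.toSubmodule :=
  le_antisymm (up_le S 1) hS

theorem up_kill {S : LieSubalgebra ℚ (Derivation ℚ A A)} {k w : ℕ} (h : w < k) : G w ≤ Inv (up G S k) := by
  intro x hx d hd
  refine Submodule.iSup_induction _ (motive := fun d : Derivation ℚ A A => d x = 0) hd ?_ rfl
    fun a b ha hb => by rw [Derivation.add_apply, ha, hb, add_zero]
  rintro ⟨j, hj⟩ d hd
  exact (hd.2 w x hx).2 (by
    change w < j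
    omega)

theorem lie_deg {i j : ℕ} {d d' : Derivation ℚ A A} (hd : d ∈ Deg G i) (hd' : d' ∈ Deg G j) : ⁅d, d'⁆ ∈ Deg G (i + j) := by
  have key : ∀ {i j : ℕ} {d d' : Derivation ℚ A A}, d ∈ Deg G i → d' ∈ Deg G j → ∀ w, ∀ x ∈ G w,
      (∀ v, v + (i + j) = w → d (d' x) ∈ G v) ∧ (w < i + j → d (d' x) = 0) := by
    intro i j d d' hd hd' w x hx
    obtain ⟨h1, h2⟩ := hd' w x hx
    refine ⟨fun v hv => ?_, fun h => ?_⟩
    · exact (hd (v + i) (d' x) (h1 (v + i) (by omega))).1 v rfl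
    · rcases lt_or_ge w j with h3 | h3
      · rw [h2 h3, map_zero]
      · exact (hd (w - j) (d' x) (h1 (w - j) (by omega))).2 (by omega)
  intro w x hx
  obtain ⟨h1, h2⟩ := key hd hd' w x hx
  obtain ⟨h3, h4⟩ := key hd' hd w x hx
  refine ⟨fun v hv => ?_, fun h => ?_⟩
  · rw [Derivation.commutator_apply]
    exact sub_mem (h1 v hv) (h3 v (by omega))
  · rw [Derivation.commutator_apply, h2 h, h4 (by omega), sub_zero]

theorem lie_up {S : LieSubalgebra ℚ (Derivation ℚ A A)} {k j : ℕ} {d y : Derivation ℚ A A} (hd : d ∈ up G S k)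
    (hy : y ∈ S.toSubmodule ⊓ Deg G j) : ⁅d, y⁆ ∈ up G S (k + j) := by
  refine Submodule.iSup_induction _ (motive := fun d : Derivation ℚ A A => ⁅d, y⁆ ∈ up G S (k + j)) hd ?_ ?_ ?_
  · rintro ⟨i, hi⟩ d hd
    exact le_up (show k + j ≤ i + j by omega) ⟨S.lie_mem hd.1 hy.1, lie_deg hd.2 hy.2⟩
  · rw [zero_lie]
    exact zero_mem _
  · intro a b ha hb
    rw [add_lie]
    exact add_mem ha hb

theorem lie_up_up {S : LieSubalgebra ℚ (Derivation ℚ A A)} {k l : ℕ} {d y : Derivation ℚ A A} (hd : d ∈ up G S k)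
    (hy : y ∈ up G S l) : ⁅d, y⁆ ∈ up G S (k + l) := by
  refine Submodule.iSup_induction _ (motive := fun y : Derivation ℚ A A => ⁅d, y⁆ ∈ up G S (k + l)) hy ?_ ?_ ?_
  · rintro ⟨j, hj⟩ y hy
    exact up_anti (by
      change k + l ≤ k + j
      omega) (lie_up hd hy)
  · have h1 : ⁅d, (0 : Derivation ℚ A A)⁆ = 0 := Derivation.ext fun x => by
      rw [Derivation.commutator_apply, Derivation.zero_apply, Derivation.zero_apply, map_zero, sub_zero]
    rw [h1]
    exact zero_mem _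
  · intro a b ha hb
    have h1 : ⁅d, a + b⁆ = ⁅d, a⁆ + ⁅d, b⁆ := Derivation.ext fun x => by
      rw [Derivation.commutator_apply, Derivation.add_apply, Derivation.add_apply, Derivation.add_apply, map_add,
        Derivation.commutator_apply, Derivation.commutator_apply]
      ring
    rw [h1]
    exact add_mem ha hb

/-- the elements of degree `k` of `S` preserve the invariants -/
theorem Inv_pres {S : LieSubalgebra ℚ (Derivation ℚ A A)} {k : ℕ} (hk : 0 < k) {U : Submodule ℚ (Derivation ℚ A A)}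
    (hU : U ≤ S.toSubmodule ⊓ Deg G k) {y : Derivation ℚ A A} (hy : y ∈ S.toSubmodule ⊓ Deg G k) {x : A}
    (hx : x ∈ Inv (up G S (k + 1) ⊔ U)) : y x ∈ Inv (up G S (k + 1) ⊔ U) := by
  have h0 : ∀ d : Derivation ℚ A A, ⁅d, y⁆ ∈ up G S (k + 1) → d x = 0 → d (y x) = 0 := by
    intro d h1 h2
    have h3 : ⁅d, y⁆ x = 0 := hx _ (Submodule.mem_sup_left h1)
    rw [Derivation.commutator_apply, h2, map_zero, sub_zero] at h3
    exact h3
  rw [mem_Inv_sup]
  constructor
  · intro d hd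
    exact h0 d (up_anti (by omega) (lie_up hd hy)) (hx d (Submodule.mem_sup_left hd))
  · intro d hd
    exact h0 d (up_anti (by omega) (lie_up (le_up le_rfl (hU hd)) hy)) (hx d (Submodule.mem_sup_right hd))

/-- nonzero elements of degree `k` of `S` are nonzero on the elements of degree `k` -/
def NonDeg (G : ℕ → Submodule ℚ A) (S : LieSubalgebra ℚ (Derivation ℚ A A)) : Prop :=
  ∀ k, 0 < k → ∀ d ∈ S.toSubmodule ⊓ Deg G k, (∀ s ∈ G k, d s = 0) → d = 0

section slices

variable [Nontrivial A] (hG : Gr G) {S : LieSubalgebra ℚ (Derivation ℚ A A)} (hN : NonDeg G S)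

include hG hN

theorem exists_eps : ∃ ε : A →ₗ[ℚ] ℚ, ∀ c : ℚ, ε (algebraMap ℚ A c) = c := by
  obtain ⟨g, hg⟩ := LinearMap.exists_leftInverse_of_injective (Algebra.linearMap ℚ A)
    (LinearMap.ker_eq_bot.mpr (algebraMap ℚ A).injective)
  exact ⟨g, fun c => congrArg (fun f : ℚ →ₗ[ℚ] ℚ => f c) hg⟩

/-- the pairing with the elements of degree `k` -/
theorem exists_dual {k : ℕ} (hk : 0 < k) : ∃ Φ : (S.toSubmodule ⊓ Deg G k : Submodule ℚ (Derivation ℚ A A)) →ₗ[ℚ] Dual ℚ (G k),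
    Function.Injective Φ ∧ ∀ d (s : G k), algebraMap ℚ A (Φ d s) = (d : Derivation ℚ A A) (s : A) := by
  obtain ⟨ε, hε⟩ := exists_eps hG hN
  have h0 : ∀ (d : (S.toSubmodule ⊓ Deg G k : Submodule ℚ (Derivation ℚ A A))) (s : G k),
      algebraMap ℚ A (ε ((d : Derivation ℚ A A) (s : A))) = (d : Derivation ℚ A A) (s : A) := by
    intro d s
    obtain ⟨c, hc⟩ := hG.zero _ ((d.2.2 k s s.2).1 0 (by omega))
    rw [hc, hε]
  refine ⟨{ toFun := fun d => ε.comp (((d : Derivation ℚ A A) : A →ₗ[ℚ] A).comp (G k).subtype)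
            map_add' := fun d d' => by
              ext s
              change ε ((d : Derivation ℚ A A) (s : A) + (d' : Derivation ℚ A A) (s : A)) = _
              rw [map_add]
              rfl
            map_smul' := fun c d => by
              ext s
              change ε (c • (d : Derivation ℚ A A) (s : A)) = _
              rw [map_smul]
              rfl }, ?_, h0⟩
  rw [injective_iff_map_eq_zero]
  intro d hd
  refine Subtype.ext (hN k hk d d.2 fun s hs => ?_)
  rw [← h0 d ⟨s, hs⟩]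
  have h1 : ε ((d : Derivation ℚ A A) s) = 0 := congrArg (fun f : Dual ℚ (G k) => f ⟨s, hs⟩) hd
  rw [h1, map_zero]

theorem fin_deg {k : ℕ} (hk : 0 < k) : FiniteDimensional ℚ (S.toSubmodule ⊓ Deg G k : Submodule ℚ (Derivation ℚ A A)) := by
  obtain ⟨Φ, h1, -⟩ := exists_dual hG hN hk
  have h2 := hG.fin k
  exact FiniteDimensional.of_injective Φ h1

theorem exists_slice {k : ℕ} (hk : 0 < k) {U : Submodule ℚ (Derivation ℚ A A)} (hU : U ≤ S.toSubmodule ⊓ Deg G k)
    {y : Derivation ℚ A A} (hy : y ∈ S.toSubmodule ⊓ Deg G k) (hyU : y ∉ U) :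
    ∃ s ∈ G k, y s = 1 ∧ ∀ d ∈ U, d s = 0 := by
  obtain ⟨Φ, h1, h2⟩ := exists_dual hG hN hk
  have hf := hG.fin k
  obtain ⟨U', hU'⟩ : ∃ U', U' = (U.comap (S.toSubmodule ⊓ Deg G k).subtype).map Φ := ⟨_, rfl⟩
  have hy' : Φ ⟨y, hy⟩ ∉ U' := by
    rw [hU']
    rintro ⟨d, hd, hd'⟩
    have h3 := h1 hd'
    rw [h3] at hd
    exact hyU hd
  have h3 : ∃ s ∈ U'.dualCoannihilator, Φ ⟨y, hy⟩ s ≠ 0 := by
    by_contra hcon
    push Not at hcon
    apply hy'
    have h4 : Φ ⟨y, hy⟩ ∈ U'.dualCoannihilator.dualAnnihilator := by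
      rw [Submodule.mem_dualAnnihilator]
      exact hcon
    rwa [Subspace.dualCoannihilator_dualAnnihilator_eq] at h4
  obtain ⟨s, hs, hs'⟩ := h3
  obtain ⟨c, hc⟩ : ∃ c, c = Φ ⟨y, hy⟩ s := ⟨_, rfl⟩
  rw [← hc] at hs'
  refine ⟨c⁻¹ • (s : A), (G k).smul_mem _ s.2, ?_, fun d hd => ?_⟩
  · have h4 := h2 ⟨y, hy⟩ s
    rw [← hc] at h4
    change _ = y (s : A) at h4
    rw [Derivation.map_smul, ← h4, Algebra.smul_def, ← map_mul, inv_mul_cancel₀ hs', map_one]
  · have h4 := h2 ⟨d, hU hd⟩ s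
    rw [Submodule.mem_dualCoannihilator] at hs
    have h5 : Φ ⟨d, hU hd⟩ s = 0 := hs _ (by
      rw [hU']
      exact ⟨⟨d, hU hd⟩, hd, rfl⟩)
    rw [h5, map_zero] at h4
    change _ = d (s : A) at h4
    rw [Derivation.map_smul, ← h4, smul_zero]

theorem exists_step {k : ℕ} (hk : 0 < k) {U : Submodule ℚ (Derivation ℚ A A)} (hU : U ≤ S.toSubmodule ⊓ Deg G k)
    {y : Derivation ℚ A A} (hy : y ∈ S.toSubmodule ⊓ Deg G k) (hyU : y ∉ U) :
    ∃ s, Step G (up G S (k + 1) ⊔ U) y s k := by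
  obtain ⟨s, h1, h2, h3⟩ := exists_slice hG hN hk hU hy hyU
  exact ⟨s, hk, hy.2, h1, h2, mem_Inv_sup.mpr ⟨up_kill k.lt_succ_self h1, h3⟩, fun x hx => Inv_pres hk hU hy hx⟩

end slices

theorem exists_chain {E : Type*} [AddCommGroup E] [Module ℚ E] (V : Submodule ℚ E) [FiniteDimensional ℚ V] :
    ∃ b : ℕ → E, (∀ i < finrank ℚ V, b i ∈ V) ∧ (∀ i < finrank ℚ V, b i ∉ span ℚ (b '' Set.Iio i)) ∧
      span ℚ (b '' Set.Iio (finrank ℚ V)) = V := by
  obtain ⟨B, -⟩ : ∃ B : Basis (Fin (finrank ℚ V)) ℚ V, True := ⟨finBasis ℚ V, trivial⟩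
  let b : ℕ → E := fun i => if h : i < finrank ℚ V then (B ⟨i, h⟩ : E) else 0
  have hb : ∀ i (h : i < finrank ℚ V), b i = (B ⟨i, h⟩ : E) := fun i h => dif_pos h
  have hli : LinearIndependent ℚ (fun i : Fin (finrank ℚ V) => (B i : E)) :=
    B.linearIndependent.map' V.subtype (Submodule.ker_subtype V)
  have himg : ∀ i ≤ finrank ℚ V, b '' Set.Iio i = (fun i : Fin (finrank ℚ V) => (B i : E)) '' {j | (j : ℕ) < i} := by
    intro i hi
    ext z
    constructor
    · rintro ⟨j, hj, rfl⟩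
      have hj' : j < i := hj
      exact ⟨⟨j, hj'.trans_le hi⟩, hj', (hb j _).symm⟩
    · rintro ⟨j, hj, rfl⟩
      exact ⟨j, hj, hb j j.2⟩
  refine ⟨b, fun i hi => ?_, fun i hi => ?_, ?_⟩
  · rw [hb i hi]
    exact (B ⟨i, hi⟩).2
  · rw [himg i hi.le, hb i hi]
    exact hli.notMem_span_image (s := {j | (j : ℕ) < i}) (x := ⟨i, hi⟩) (by simp)
  · rw [himg _ le_rfl]
    have h1 : {j : Fin (finrank ℚ V) | (j : ℕ) < finrank ℚ V} = Set.univ := by
      ext j
      simp
    rw [h1, Set.image_univ]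
    have h2 : Set.range (fun i : Fin (finrank ℚ V) => (B i : E)) = V.subtype '' Set.range B := by
      rw [← Set.range_comp]
      rfl
    rw [h2, Submodule.span_image, B.span_eq, Submodule.map_top, Submodule.range_subtype]

theorem span_Iio_succ {E : Type*} [AddCommGroup E] [Module ℚ E] (b : ℕ → E) (j : ℕ) :
    span ℚ (b '' Set.Iio (j + 1)) = span ℚ (b '' Set.Iio j) ⊔ span ℚ {b j} := by
  have h1 : Set.Iio (j + 1) = Set.Iio j ∪ {j} := by
    ext i
    simp
  rw [h1, Set.image_union, Submodule.span_union, Set.image_singleton]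

/-- the Hilbert series of the invariants modulo `I` -/
noncomputable def HS (G : ℕ → Submodule ℚ A) (I : Ideal A) (W : Submodule ℚ (Derivation ℚ A A)) : PowerSeries ℚ :=
  PowerSeries.mk fun w => (dm G I W w : ℚ)

/-- the dimension of the part of degree `k` of `S` -/
noncomputable def rk (G : ℕ → Submodule ℚ A) (S : LieSubalgebra ℚ (Derivation ℚ A A)) (k : ℕ) : ℕ :=
  finrank ℚ (S.toSubmodule ⊓ Deg G k : Submodule ℚ (Derivation ℚ A A))

/-- the product of the `(1 - X ^ k) ^ (dim S_k)`, `1 ≤ k ≤ n` -/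
noncomputable def prd (G : ℕ → Submodule ℚ A) (S : LieSubalgebra ℚ (Derivation ℚ A A)) (n : ℕ) : PowerSeries ℚ :=
  ∏ k ∈ Finset.Icc 1 n, (1 - PowerSeries.X ^ k) ^ rk G S k

section main

variable [Nontrivial A] (hG : Gr G) {S : LieSubalgebra ℚ (Derivation ℚ A A)} (hN : NonDeg G S) {I : Ideal A}

include hG hN

theorem level {k : ℕ} (hk : 0 < k) (hI : ∀ d ∈ S, ∀ x ∈ I, d x ∈ I) : gen G I (up G S (k + 1)) ≤ gen G I (up G S k) ∧
    HS G I (up G S k) = HS G I (up G S (k + 1)) * (1 - PowerSeries.X ^ k) ^ rk G S k := by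
  have hf := fin_deg hG hN hk
  obtain ⟨b, h1, h2, h3⟩ := exists_chain (S.toSubmodule ⊓ Deg G k : Submodule ℚ (Derivation ℚ A A))
  have key : ∀ j ≤ rk G S k, gen G I (up G S (k + 1)) ≤ gen G I (up G S (k + 1) ⊔ span ℚ (b '' Set.Iio j)) ∧
      HS G I (up G S (k + 1) ⊔ span ℚ (b '' Set.Iio j)) =
        HS G I (up G S (k + 1)) * (1 - PowerSeries.X ^ k) ^ j := by
    intro j
    induction j with
    | zero =>
      intro _
      have h4 : span ℚ (b '' Set.Iio 0) = ⊥ := by simp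
      rw [h4, sup_bot_eq, pow_zero, mul_one]
      exact ⟨le_rfl, rfl⟩
    | succ j ih =>
      intro hj
      obtain ⟨i1, i2⟩ := ih (by omega)
      have hU : span ℚ (b '' Set.Iio j) ≤ S.toSubmodule ⊓ Deg G k := by
        rw [Submodule.span_le]
        rintro _ ⟨i, hi, rfl⟩
        have hi' : i < j := hi
        exact h1 i (by
          change i < rk G S k
          omega)
      have hy : b j ∈ S.toSubmodule ⊓ Deg G k := h1 j hj
      obtain ⟨s, st⟩ := exists_step hG hN hk hU hy (h2 j hj)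
      have hIy : ∀ x ∈ I, b j x ∈ I := hI (b j) hy.1
      rw [span_Iio_succ, ← sup_assoc]
      refine ⟨i1.trans (step_gen hG st hIy), ?_⟩
      rw [pow_succ, ← mul_assoc, ← i2]
      ext w
      have h5 := step_dim hG st hIy w
      rw [mul_sub, mul_one, map_sub, PowerSeries.coeff_mul_X_pow', HS, HS, PowerSeries.coeff_mk, PowerSeries.coeff_mk]
      rw [h5]
      split_ifs with h6
      · rw [PowerSeries.coeff_mk]
        push_cast
        ring
      · push_cast
        ring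
  have h4 := key _ le_rfl
  have h5 : up G S (k + 1) ⊔ span ℚ (b '' Set.Iio (rk G S k)) = up G S k := by
    rw [up_succ S k]
    congr 1
  rw [h5] at h4
  exact h4

theorem chain_gen (hI : ∀ d ∈ S, ∀ x ∈ I, d x ∈ I) (n : ℕ) : gen G I (up G S (n + 1)) ≤ gen G I (up G S 1) := by
  induction n with
  | zero => exact le_rfl
  | succ n ih => exact (level hG hN (Nat.succ_pos n) hI).1.trans ih

theorem chain_HS (hI : ∀ d ∈ S, ∀ x ∈ I, d x ∈ I) (n : ℕ) : HS G I (up G S 1) = HS G I (up G S (n + 1)) * prd G S n := by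
  induction n with
  | zero => simp [prd]
  | succ n ih =>
    rw [ih, (level hG hN (Nat.succ_pos n) hI).2, prd, prd, ← Finset.insert_Icc_right_eq_Icc_add_one (by omega),
      Finset.prod_insert (by simp), mul_assoc]
    congr 1

end main

end Pool.Agent.H249.MZ
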