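import Mathlib

/-!
# The shuffle algebra on the letters `0, 1, 2, ...`
-/

set_option autoImplicit false

namespace Pool.Agent.H249.MZ

/-- Rational combinations of words in the letters `0, 1, 2, ...`. -/
def Sh : Type := List ℕ →₀ ℚ

noncomputable instance : AddCommGroup Sh := inferInstanceAs (AddCommGroup (List ℕ →₀ ℚ))
noncomputable instance : Module ℚ Sh := inferInstanceAs (Module ℚ (List ℕ →₀ ℚ))

/-- the word `w` as an element of the shuffle algebra -/
noncomputable def word (w : List ℕ) : Sh := (Finsupp.single w 1 : List ℕ →₀ ℚ)

/-- put the letter `a` in front of all words -/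
noncomputable def cons (a : ℕ) : Sh →ₗ[ℚ] Sh :=
  (Finsupp.lmapDomain ℚ ℚ (fun w : List ℕ => a :: w) : (List ℕ →₀ ℚ) →ₗ[ℚ] (List ℕ →₀ ℚ))

/-- the linear map with given values on the words -/
noncomputable def ext {M : Type} [AddCommGroup M] [Module ℚ M] (f : List ℕ → M) : Sh →ₗ[ℚ] M :=
  (Finsupp.linearCombination ℚ f : (List ℕ →₀ ℚ) →ₗ[ℚ] M)

@[simp] theorem ext_word {M : Type} [AddCommGroup M] [Module ℚ M] (f : List ℕ → M) (w : List ℕ) :
    ext f (word w) = f w := by
  change Finsupp.linearCombination ℚ f (Finsupp.single w 1) = _
  rw [Finsupp.linearCombination_single, one_smul]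

@[simp] theorem cons_word (a : ℕ) (w : List ℕ) : cons a (word w) = word (a :: w) := by
  change Finsupp.mapDomain _ (Finsupp.single w (1 : ℚ)) = _
  rw [Finsupp.mapDomain_single]
  rfl

theorem Sh.induction {p : Sh → Prop} (f : Sh) (h0 : p 0) (hadd : ∀ f g, p f → p g → p (f + g))
    (hs : ∀ (c : ℚ) w, p (c • word w)) : p f := by
  refine Finsupp.induction_linear (motive := p) f h0 hadd ?_
  intro w c
  have h := hs c w
  have h2 : (c • word w : Sh) = (Finsupp.single w c : List ℕ →₀ ℚ) := by
    change c • (Finsupp.single w (1 : ℚ)) = _
    rw [Finsupp.smul_single, smul_eq_mul, mul_one]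
  rw [h2] at h
  exact h

theorem lin_ext {M : Type*} [AddCommGroup M] [Module ℚ M] {f g : Sh →ₗ[ℚ] M}
    (h : ∀ w, f (word w) = g (word w)) : f = g := by
  apply LinearMap.ext
  intro x
  refine Sh.induction (p := fun x => f x = g x) x (by simp) ?_ ?_
  · intro a b ha hb; rw [map_add, map_add, ha, hb]
  · intro c w; rw [map_smul, map_smul, h]

/-- the shuffle product of two words: the first letter of each term is the first letter of one of the two words -/
noncomputable def shw : List ℕ → List ℕ → Sh
  | [], v => word v
  | a :: u, [] => word (a :: u)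
  | a :: u, b :: v => cons a (shw u (b :: v)) + cons b (shw (a :: u) v)
termination_by u v => u.length + v.length

/-- the shuffle product -/
noncomputable def sh : Sh →ₗ[ℚ] Sh →ₗ[ℚ] Sh := ext fun u => ext fun v => shw u v

theorem sh_word (u v : List ℕ) : sh (word u) (word v) = shw u v := by
  rw [sh, ext_word, ext_word]

theorem one_sh (x : Sh) : sh (word []) x = x := by
  have h : sh (word []) = LinearMap.id := lin_ext fun w => by
    rw [sh_word, shw]
    rfl
  rw [h]
  rfl

theorem sh_one (x : Sh) : sh x (word []) = x := by
  have h : sh.flip (word []) = LinearMap.id := lin_ext fun w => by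
    rw [LinearMap.flip_apply, sh_word]
    cases w <;> rw [shw] <;> rfl
  exact congrArg (fun f : Sh →ₗ[ℚ] Sh => f x) h

theorem sh_cons_word (a b : ℕ) (u v : List ℕ) : sh (word (a :: u)) (word (b :: v)) =
    cons a (sh (word u) (word (b :: v))) + cons b (sh (word (a :: u)) (word v)) := by
  rw [sh_word, sh_word, sh_word, shw]

theorem sh_cons (a b : ℕ) (f g : Sh) : sh (cons a f) (cons b g) =
    cons a (sh f (cons b g)) + cons b (sh (cons a f) g) := by
  have key : ∀ u : List ℕ, ∀ g : Sh, sh (cons a (word u)) (cons b g) =
      cons a (sh (word u) (cons b g)) + cons b (sh (cons a (word u)) g) := by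
    intro u g
    refine Sh.induction (p := fun g => sh (cons a (word u)) (cons b g) =
      cons a (sh (word u) (cons b g)) + cons b (sh (cons a (word u)) g)) g (by simp) ?_ ?_
    · intro x y hx hy
      simp only [map_add, hx, hy]; abel
    · intro c w
      simp only [map_smul, cons_word, sh_cons_word, smul_add]
  refine Sh.induction (p := fun f => sh (cons a f) (cons b g) =
      cons a (sh f (cons b g)) + cons b (sh (cons a f) g)) f (by simp) ?_ ?_
  · intro x y hx hy
    simp only [map_add, LinearMap.add_apply, hx, hy]; abel
  · intro c w
    simp only [map_smul, LinearMap.smul_apply, key, smul_add]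

theorem comm_word : ∀ (n : ℕ) (u v : List ℕ), u.length + v.length ≤ n →
    sh (word u) (word v) = sh (word v) (word u) := by
  intro n
  induction n with
  | zero =>
    intro u v h
    have h1 : u = [] := List.length_eq_zero_iff.1 (by omega)
    have h2 : v = [] := List.length_eq_zero_iff.1 (by omega)
    subst h1 h2; rfl
  | succ n ih =>
    intro u v h
    rcases u with _ | ⟨a, u⟩
    · rw [one_sh, sh_one]
    rcases v with _ | ⟨b, v⟩
    · rw [one_sh, sh_one]
    simp only [List.length_cons] at h
    rw [sh_cons_word, sh_cons_word, ih u (b :: v) (by simp; omega), ih (a :: u) v (by simp; omega)]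
    abel

theorem sh_comm (f g : Sh) : sh f g = sh g f := by
  have : sh = sh.flip := by
    apply lin_ext
    intro u
    apply lin_ext
    intro v
    exact comm_word _ u v le_rfl
  conv_lhs => rw [this]
  rfl

theorem assoc_word : ∀ (n : ℕ) (u v w : List ℕ), u.length + v.length + w.length ≤ n →
    sh (sh (word u) (word v)) (word w) = sh (word u) (sh (word v) (word w)) := by
  intro n
  induction n with
  | zero =>
    intro u v w h
    have h1 : u = [] := List.length_eq_zero_iff.1 (by omega)
    subst h1
    rw [one_sh, one_sh]
  | succ n ih =>
    intro u v w h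
    rcases u with _ | ⟨a, u⟩
    · rw [one_sh, one_sh]
    rcases v with _ | ⟨b, v⟩
    · rw [one_sh, sh_one]
    rcases w with _ | ⟨c, w⟩
    · rw [sh_one, sh_one]
    simp only [List.length_cons] at h
    have i1 := ih u (b :: v) (c :: w) (by simp; omega)
    have i2 := ih (a :: u) v (c :: w) (by simp; omega)
    have i3 := ih (a :: u) (b :: v) w (by simp; omega)
    simp only [← cons_word] at i1 i2 i3 ⊢
    have L : sh (sh (cons a (word u)) (cons b (word v))) (cons c (word w))
        = cons a (sh (sh (word u) (cons b (word v))) (cons c (word w)))
          + cons b (sh (sh (cons a (word u)) (word v)) (cons c (word w)))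
          + cons c (sh (sh (cons a (word u)) (cons b (word v))) (word w)) := by
      rw [sh_cons a b (word u) (word v)]
      simp only [map_add, LinearMap.add_apply]
      rw [sh_cons a c, sh_cons b c]
      abel
    have Rr : sh (cons a (word u)) (sh (cons b (word v)) (cons c (word w)))
        = cons a (sh (word u) (sh (cons b (word v)) (cons c (word w))))
          + cons b (sh (cons a (word u)) (sh (word v) (cons c (word w))))
          + cons c (sh (cons a (word u)) (sh (cons b (word v)) (word w))) := by
      rw [sh_cons b c, map_add, sh_cons a b, sh_cons a c, map_add, map_add]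
      abel
    rw [L, Rr, i1, i2, i3]

theorem sh_assoc (f g h : Sh) : sh (sh f g) h = sh f (sh g h) := by
  refine Sh.induction (p := fun f => sh (sh f g) h = sh f (sh g h)) f (by simp) ?_ ?_
  · intro x y hx hy
    simp only [map_add, LinearMap.add_apply, hx, hy]
  intro c u
  simp only [map_smul, LinearMap.smul_apply]
  congr 1
  refine Sh.induction (p := fun g => sh (sh (word u) g) h = sh (word u) (sh g h)) g (by simp) ?_ ?_
  · intro x y hx hy
    simp only [map_add, LinearMap.add_apply, hx, hy]
  intro c v
  simp only [map_smul, LinearMap.smul_apply]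
  congr 1
  refine Sh.induction (p := fun h => sh (sh (word u) (word v)) h = sh (word u) (sh (word v) h)) h
    (by simp) ?_ ?_
  · intro x y hx hy
    simp only [map_add, hx, hy]
  intro c w
  simp only [map_smul]
  congr 1
  exact assoc_word _ u v w le_rfl

noncomputable instance : CommRing Sh :=
  { (inferInstance : AddCommGroup Sh) with
    mul := fun x y => sh x y
    one := word []
    left_distrib := fun x y z => by
      change sh x (y + z) = sh x y + sh x z
      exact map_add _ _ _
    right_distrib := fun x y z => by
      change sh (x + y) z = sh x z + sh y z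
      exact LinearMap.map_add₂ _ _ _ _
    zero_mul := fun x => by
      change sh 0 x = 0
      rw [map_zero]; rfl
    mul_zero := fun x => by
      change sh x 0 = 0
      exact map_zero _
    mul_assoc := fun x y z => sh_assoc x y z
    one_mul := fun x => one_sh x
    mul_one := fun x => sh_one x
    mul_comm := fun x y => sh_comm x y }

noncomputable instance : Algebra ℚ Sh :=
  Algebra.ofModule
    (fun r x y => by
      change sh (r • x) y = r • sh x y
      exact LinearMap.map_smul₂ _ _ _ _)
    (fun r x y => by
      change sh x (r • y) = r • sh x y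
      exact map_smul _ _ _)

theorem mul_def (x y : Sh) : x * y = sh x y := rfl
theorem one_def : (1 : Sh) = word [] := rfl

/-- remove the first letter of a word if it is `a`; other words are sent to zero -/
noncomputable def cutw (a : ℕ) : List ℕ → Sh
  | [] => 0
  | b :: w => if b = a then word w else 0

/-- remove the last letter of a word if it is `a`; other words are sent to zero -/
noncomputable def backw (a : ℕ) (w : List ℕ) : Sh := if w.getLast? = some a then word w.dropLast else 0

theorem cut_cons (a b : ℕ) (x : Sh) : ext (cutw a) (cons b x) = if b = a then x else 0 := by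
  have h : (ext (cutw a)).comp (cons b) = if b = a then LinearMap.id else 0 := lin_ext fun w => by
    rw [LinearMap.comp_apply, cons_word, ext_word, cutw]
    split_ifs <;> rfl
  have h2 := congrArg (fun f : Sh →ₗ[ℚ] Sh => f x) h
  simp only [LinearMap.comp_apply] at h2
  rw [h2]
  split_ifs <;> rfl

theorem cut_mul (a : ℕ) (x y : Sh) : ext (cutw a) (x * y) = x * ext (cutw a) y + y * ext (cutw a) x := by
  have key : ∀ u v : List ℕ, ext (cutw a) (word u * word v) =
      word u * ext (cutw a) (word v) + word v * ext (cutw a) (word u) := by
    intro u v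
    rcases u with _ | ⟨b, u⟩
    · rw [← one_def, one_mul, one_mul, one_def, ext_word (cutw a) [], cutw, mul_zero, add_zero]
    rcases v with _ | ⟨c, v⟩
    · rw [← one_def, mul_one, one_mul, one_def, ext_word (cutw a) [], cutw, mul_zero, zero_add]
    rw [mul_def, sh_cons_word, map_add, cut_cons, cut_cons, ext_word, ext_word, cutw, cutw, ← mul_def, ← mul_def,
      mul_comm (word u), add_comm]
    congr 1 <;> split_ifs <;> simp
  refine Sh.induction (p := fun x => ext (cutw a) (x * y) = x * ext (cutw a) y + y * ext (cutw a) x) x
    (by simp) (fun f g hf hg => by rw [add_mul, map_add, hf, hg, map_add]; ring) fun c u => ?_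
  refine Sh.induction (p := fun y => ext (cutw a) ((c • word u) * y) =
    (c • word u) * ext (cutw a) y + y * ext (cutw a) (c • word u)) y
    (by simp) (fun f g hf hg => by rw [mul_add, map_add, hf, hg, map_add]; ring) fun d v => ?_
  rw [smul_mul_smul_comm, map_smul, map_smul, map_smul, key, smul_mul_smul_comm, smul_mul_smul_comm, smul_add, mul_comm d c]

/-- the derivation of the shuffle algebra which removes the first letter if it is `a` -/
noncomputable def cutD (a : ℕ) : Derivation ℚ Sh Sh :=
  Derivation.mk' (ext (cutw a)) fun x y => by
    rw [cut_mul]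
    rfl

theorem cutD_word (a : ℕ) (w : List ℕ) : cutD a (word w) = cutw a w := ext_word _ _

/-- cutting in front and at the back commute -/
theorem cut_back (a b : ℕ) (x : Sh) : ext (cutw a) (ext (backw b) x) = ext (backw b) (ext (cutw a) x) := by
  have h : (ext (cutw a)).comp (ext (backw b)) = (ext (backw b)).comp (ext (cutw a)) := lin_ext fun w => by
    rw [LinearMap.comp_apply, LinearMap.comp_apply, ext_word, ext_word]
    rcases w with _ | ⟨c, w⟩
    · rw [cutw, backw, map_zero]
      simp
    · rw [cutw, backw]
      rcases w with _ | ⟨d, w⟩
      · rw [show ([c] : List ℕ).getLast? = some c from rfl, show ([c] : List ℕ).dropLast = [] from rfl]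
        have e1 : ext (cutw a) (word []) = 0 := by rw [ext_word, cutw]
        have e2 : ext (backw b) (word []) = 0 := by rw [ext_word, backw]; simp
        split_ifs <;> simp only [e1, e2, map_zero]
      · have e1 : (c :: d :: w).getLast? = (d :: w).getLast? := by simp
        have e2 : (c :: d :: w).dropLast = c :: (d :: w).dropLast := by simp
        rw [e1, e2]
        by_cases h1 : c = a
        · rw [if_pos h1, ext_word, backw]
          split_ifs with h2
          · rw [ext_word, cutw, if_pos h1]
          · rw [map_zero]
        · rw [if_neg h1, map_zero]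
          split_ifs with h2
          · rw [ext_word, cutw, if_neg h1]
          · rw [map_zero]
  exact congrArg (fun f : Sh →ₗ[ℚ] Sh => f x) h

end Pool.Agent.H249.MZ
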